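import Pool.Agent.Y153.QN3.Sym

/-! Project QT, task N3 (arithmetic): the quartic character of `ZMod p` attached to a Gaussian prime. -/

set_option autoImplicit false

namespace Pool.Agent.Y153.QN3

theorem exists_red {p : ℕ} [hp : Fact p.Prime] (α : GaussianInt) (hn : α.norm = (p : ℤ)) :
    ∃ φ : GaussianInt →+* ZMod p, ∀ x, φ x = 0 ↔ α ∣ x := by
  have hn' : α.re * α.re + α.im * α.im = p := by
    rw [← hn, Zsqrtd.norm_def]; ring
  have hpp := hp.out
  have hpi : Prime (p : ℤ) := Nat.prime_iff_prime_int.1 hpp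
  have hb : ((α.im : ℤ) : ZMod p) ≠ 0 := by
    intro h
    rw [ZMod.intCast_zmod_eq_zero_iff_dvd] at h
    have h1 : (p : ℤ) ∣ α.re * α.re := by
      have : α.re * α.re = p - α.im * α.im := by linarith
      rw [this]
      exact dvd_sub (dvd_refl _) (Dvd.dvd.mul_right h _)
    have h2 : (p : ℤ) ∣ α.re := by
      rcases hpi.dvd_or_dvd h1 with h | h <;> exact h
    obtain ⟨c, hc⟩ := h
    obtain ⟨d, hd⟩ := h2
    rw [hc, hd] at hn'
    have h3 : (p : ℤ) * (p * (d * d + c * c) - 1) = 0 := by linear_combination hn'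
    rcases mul_eq_zero.1 h3 with h4 | h4
    · exact hpi.ne_zero h4
    · have h5 : (p : ℤ) ∣ 1 := ⟨d * d + c * c, by linarith⟩
      exact hpi.not_dvd_one h5
  set a : ZMod p := ((α.re : ℤ) : ZMod p) with ha
  set b : ZMod p := ((α.im : ℤ) : ZMod p) with hbb
  have hab : a * a + b * b = 0 := by
    have := congrArg (fun z : ℤ => (z : ZMod p)) hn'
    push_cast at this
    rw [ZMod.natCast_self] at this
    exact this
  set r : ZMod p := -a * b⁻¹ with hr
  have hrb : r * b = -a := by rw [hr, mul_assoc, inv_mul_cancel₀ hb, mul_one]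
  have hrr : r * r = ((-1 : ℤ) : ZMod p) := by
    have h1 : (r * r + 1) * (b * b) = 0 := by
      have : (r * r + 1) * (b * b) = (r * b) * (r * b) + b * b := by ring
      rw [this, hrb]
      linear_combination hab
    rcases mul_eq_zero.1 h1 with h | h
    · push_cast; linear_combination h
    · exact absurd h (mul_ne_zero hb hb)
  refine ⟨Zsqrtd.lift ⟨r, hrr⟩, fun x => ?_⟩
  have hφ : Zsqrtd.lift ⟨r, hrr⟩ x = (x.re : ZMod p) + (x.im : ZMod p) * r := rfl
  rw [hφ]
  constructor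
  · intro h
    have h1 : ((x.re : ℤ) : ZMod p) * b - (x.im : ℤ) * a = 0 := by
      have : ((x.re : ℤ) : ZMod p) * b - (x.im : ℤ) * a =
        (((x.re : ℤ) : ZMod p) + (x.im : ℤ) * r) * b - (x.im : ℤ) * (r * b + a) := by ring
      rw [this, h, hrb]
      ring
    have h2 : ((x.re : ℤ) : ZMod p) * a + (x.im : ℤ) * b = 0 := by
      have : (((x.re : ℤ) : ZMod p) * a + (x.im : ℤ) * b) * b = 0 := by
        have e : (((x.re : ℤ) : ZMod p) * a + (x.im : ℤ) * b) * b =
          a * (((x.re : ℤ) : ZMod p) * b - (x.im : ℤ) * a) + (x.im : ℤ) * (a * a + b * b) := by ring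
        rw [e, h1, hab]
        ring
      rcases mul_eq_zero.1 this with h | h
      · exact h
      · exact absurd h hb
    have h1' : (p : ℤ) ∣ x.re * α.im - x.im * α.re := by
      rw [← ZMod.intCast_zmod_eq_zero_iff_dvd]
      push_cast
      exact h1
    have h2' : (p : ℤ) ∣ x.re * α.re + x.im * α.im := by
      rw [← ZMod.intCast_zmod_eq_zero_iff_dvd]
      push_cast
      exact h2
    obtain ⟨c, hc⟩ := h1'
    obtain ⟨d, hd⟩ := h2'
    refine ⟨⟨d, -c⟩, ?_⟩
    have hp0 : (p : ℤ) ≠ 0 := hpi.ne_zero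
    apply Zsqrtd.ext
    · rw [Zsqrtd.re_mul]
      simp only
      apply mul_left_cancel₀ hp0
      have : (p : ℤ) * (α.re * d + -1 * α.im * -c) = α.re * (p * d) + α.im * (p * c) := by ring
      rw [this, ← hc, ← hd]
      have : α.re * (x.re * α.re + x.im * α.im) + α.im * (x.re * α.im - x.im * α.re) =
        (α.re * α.re + α.im * α.im) * x.re := by ring
      rw [this, hn']
    · rw [Zsqrtd.im_mul]
      simp only
      apply mul_left_cancel₀ hp0
      have : (p : ℤ) * (α.re * -c + α.im * d) = -α.re * (p * c) + α.im * (p * d) := by ring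
      rw [this, ← hc, ← hd]
      have : -α.re * (x.re * α.im - x.im * α.re) + α.im * (x.re * α.re + x.im * α.im) =
        (α.re * α.re + α.im * α.im) * x.im := by ring
      rw [this, hn']
  · rintro ⟨c, rfl⟩
    rw [Zsqrtd.re_mul, Zsqrtd.im_mul]
    push_cast
    have : a * (c.re : ZMod p) + -1 * b * (c.im : ZMod p) + (a * (c.im : ZMod p) + b * (c.re : ZMod p)) * r =
      (c.re : ZMod p) * (a + r * b) + (c.im : ZMod p) * (r * (a + r * b) - (r * r + 1) * b) := by ring
    have h0 : a + r * b = 0 := by rw [hrb]; ring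
    have h1 : r * r + 1 = 0 := by rw [hrr]; push_cast; ring
    rw [this, h0, h1]
    ring

section
variable {p : ℕ} [hp : Fact p.Prime]

theorem pow_case (hp4 : p % 4 = 1) (x : ZMod p) :
    x ^ ((p - 1) / 4) = 0 ∨ (x ^ ((p - 1) / 4)) ^ 4 = 1 := by
  have h5 : 5 ≤ p := by
    have := hp.out.two_le
    omega
  by_cases hx : x = 0
  · left
    rw [hx, zero_pow (by omega)]
  · right
    rw [← pow_mul, show (p - 1) / 4 * 4 = p - 1 by omega]
    exact ZMod.pow_card_sub_one_eq_one hx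

theorem two_ne (hp4 : p % 4 = 1) : (2 : ZMod p) ≠ 0 := by
  have : ((2 : ℕ) : ZMod p) ≠ 0 := by
    rw [Ne, ZMod.natCast_eq_zero_iff]
    intro h
    have := Nat.le_of_dvd (by norm_num) h
    have := hp.out.two_le
    have : p = 2 := by omega
    omega
  exact_mod_cast this

/-- the quartic character -/
noncomputable def chi (φ : GaussianInt →+* ZMod p) (hp4 : p % 4 = 1) :
    MulChar (ZMod p) GaussianInt where
  toFun x := L φ (x ^ ((p - 1) / 4))
  map_one' := by
    show L φ (1 ^ ((p - 1) / 4)) = 1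
    rw [one_pow, L_one (two_ne hp4)]
  map_mul' := by
    intro x y
    show L φ ((x * y) ^ ((p - 1) / 4)) = L φ (x ^ ((p - 1) / 4)) * L φ (y ^ ((p - 1) / 4))
    rw [mul_pow, L_mul (two_ne hp4) φ (pow_case hp4 x) (pow_case hp4 y)]
  map_nonunit' := by
    intro x hx
    have h0 : x = 0 := by
      by_contra h
      exact hx (isUnit_iff_ne_zero.2 h)
    have h5 : 5 ≤ p := by
      have := hp.out.two_le
      omega
    show L φ (x ^ ((p - 1) / 4)) = 0
    rw [h0, zero_pow (by omega), L_zero (two_ne hp4)]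

theorem chi_U (φ : GaussianInt →+* ZMod p) (hp4 : p % 4 = 1) (x : ZMod p) : U (chi φ hp4 x) :=
  L_U _ _

theorem map_chi (φ : GaussianInt →+* ZMod p) (hp4 : p % 4 = 1) (x : ZMod p) :
    φ (chi φ hp4 x) = x ^ ((p - 1) / 4) :=
  map_L φ (pow_case hp4 x)

theorem chi_eq (φ : GaussianInt →+* ZMod p) (hp4 : p % 4 = 1) (x : ZMod p) {u : GaussianInt}
    (hu : U u) (h : φ u = x ^ ((p - 1) / 4)) : chi φ hp4 x = u :=
  L_eq (two_ne hp4) φ hu h

theorem chi_sq (φ : GaussianInt →+* ZMod p) (hp4 : p % 4 = 1) (x : ZMod p) :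
    (chi φ hp4 x) ^ 2 = ((quadraticChar (ZMod p) x : ℤ) : GaussianInt) := by
  refine inj4 (two_ne hp4) φ (U_pow (chi_U φ hp4 x) 2) ?_ ?_
  · by_cases hx : x = 0
    · left; rw [hx]; simp
    · rcases quadraticChar_dichotomy hx with h | h
      · rw [h]; simpa using U_one
      · rw [h]; push_cast; exact U_neg U_one
  · have h2 : ringChar (ZMod p) ≠ 2 := by
      rw [ZMod.ringChar_zmod_n]; intro h; omega
    rw [map_pow, map_chi, ← pow_mul, map_intCast, quadraticChar_eq_pow_of_char_ne_two' h2, ZMod.card]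
    congr 1
    omega

theorem chi_pow_four (φ : GaussianInt →+* ZMod p) (hp4 : p % 4 = 1) {x : ZMod p} (hx : x ≠ 0) :
    (chi φ hp4 x) ^ 4 = 1 := by
  have h := chi_sq φ hp4 x
  have e : (chi φ hp4 x) ^ 4 = ((chi φ hp4 x) ^ 2) ^ 2 := by ring
  rw [e, h]
  rcases quadraticChar_dichotomy hx with h | h <;> rw [h] <;> simp

theorem chi_zero (φ : GaussianInt →+* ZMod p) (hp4 : p % 4 = 1) : chi φ hp4 0 = 0 :=
  MulChar.map_zero _

theorem chi_sq_ne_one (φ : GaussianInt →+* ZMod p) (hp4 : p % 4 = 1) : (chi φ hp4) ^ 2 ≠ 1 := by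
  intro h
  have h2 : ringChar (ZMod p) ≠ 2 := by
    rw [ZMod.ringChar_zmod_n]; intro h; omega
  obtain ⟨a, ha⟩ := quadraticChar_exists_neg_one h2
  have ha0 : a ≠ 0 := by
    rintro rfl
    simp at ha
  have h1 := chi_sq φ hp4 a
  have h3 : ((chi φ hp4) ^ 2) a = (chi φ hp4 a) ^ 2 := MulChar.pow_apply' _ (by norm_num) a
  rw [h, MulChar.one_apply (isUnit_iff_ne_zero.2 ha0)] at h3
  rw [← h3, ha] at h1
  exact absurd h1 (by decide)

theorem chi_ne_one (φ : GaussianInt →+* ZMod p) (hp4 : p % 4 = 1) : chi φ hp4 ≠ 1 := by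
  intro h
  exact chi_sq_ne_one φ hp4 (by rw [h, one_pow])

theorem chi_four (φ : GaussianInt →+* ZMod p) (hp4 : p % 4 = 1) : (chi φ hp4) ^ 4 = 1 := by
  refine MulChar.ext fun a => ?_
  rw [MulChar.pow_apply_coe, MulChar.one_apply_coe]
  exact chi_pow_four φ hp4 (Units.ne_zero a)

theorem chi_cube_ne_one (φ : GaussianInt →+* ZMod p) (hp4 : p % 4 = 1) :
    chi φ hp4 * (chi φ hp4) ^ 2 ≠ 1 := by
  intro h
  have h4 := chi_four φ hp4
  have : (chi φ hp4) ^ 4 = chi φ hp4 * (chi φ hp4 * (chi φ hp4) ^ 2) := by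
    rw [← pow_succ', ← pow_succ']
  rw [this, h, mul_one] at h4
  exact chi_ne_one φ hp4 h4

theorem chi_neg_one (φ : GaussianInt →+* ZMod p) (hp4 : p % 4 = 1) : (chi φ hp4 (-1)) ^ 2 = 1 := by
  have : (chi φ hp4 (-1)) ^ 2 = chi φ hp4 ((-1) ^ 2) := (map_pow (chi φ hp4) (-1) 2).symm
  rw [this]
  simp

end

/-- the divisibility in `Sym.split` in terms of `chi` -/
theorem split_iff {p : ℕ} [hp : Fact p.Prime] (hp4 : p % 4 = 1) {α : GaussianInt}
    {φ : GaussianInt →+* ZMod p} (hφ : ∀ x, φ x = 0 ↔ α ∣ x) (B : ℤ) {u : GaussianInt} (hu : U u) :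
    α ∣ (B : GaussianInt) ^ ((p - 1) / 4) - u ↔ chi φ hp4 (B : ZMod p) = u := by
  rw [← hφ, map_sub, map_pow, map_intCast, sub_eq_zero]
  constructor
  · intro h
    exact chi_eq φ hp4 _ hu h.symm
  · intro h
    rw [← h, map_chi]

theorem norm_mod4 {p : ℕ} {α : GaussianInt} (hn : α.norm = (p : ℤ)) (hp2 : p % 2 = 1) :
    p % 4 = 1 := by
  have hn' : α.re * α.re + α.im * α.im = p := by
    rw [← hn, Zsqrtd.norm_def]; ring
  have h : ∀ n : ℤ, n * n % 4 = 0 ∨ n * n % 4 = 1 := by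
    intro n
    have h4 : n % 4 = 0 ∨ n % 4 = 1 ∨ n % 4 = 2 ∨ n % 4 = 3 := by omega
    rcases h4 with h | h | h | h <;> simp [Int.mul_emod, h]
  have := h α.re
  have := h α.im
  omega

end Pool.Agent.Y153.QN3
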