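import Pool.Agent.Y153.QN3.Chi

/-! Project QT, task N3 (arithmetic): the symbol `(q*/α)₄` from a character modulo `q`. -/

set_option autoImplicit false

namespace Pool.Agent.Y153.QN3

theorem cop4 (α : GaussianInt) {q : ℕ} (hq : q.Prime) :
    IsCoprime α ((4 * q : ℕ) : GaussianInt) ↔ (α.re + α.im) % 2 = 1 ∧ ¬ (q : ℤ) ∣ α.norm := by
  rw [cop_mul_right, cop_prime hq]
  have := cop_two_pow α (k := 2) (by norm_num)
  rw [show (2 ^ 2 : ℕ) = 4 by norm_num] at this
  rw [this]

theorem prim_norm_dvd {α : GaussianInt} {q : ℕ} (h : (α.re + α.im) % 2 = 1) :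
    ¬ (q : ℤ) ∣ (prim α).norm ↔ ¬ (q : ℤ) ∣ α.norm := by
  rw [norm_prim h]

theorem odd_of_mul {α β : GaussianInt} (h : ((α * β).re + (α * β).im) % 2 = 1) :
    (α.re + α.im) % 2 = 1 ∧ (β.re + β.im) % 2 = 1 := by
  have h1 := norm_mod2 (α * β)
  have h2 := norm_mod2 α
  have h3 := norm_mod2 β
  rw [Zsqrtd.norm_mul, h] at h1
  rw [← h2, ← h3]
  rcases Int.emod_two_eq_zero_or_one α.norm with ha | ha <;>
    rcases Int.emod_two_eq_zero_or_one β.norm with hb | hb <;>
    simp [Int.mul_emod, ha, hb] at h1 ⊢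

theorem Sym_of {q : ℕ} (hq : q.Prime) (hq2 : q ≠ 2) {F : Type*} [Field F] (h2 : (2 : F) ≠ 0)
    (r : GaussianInt →+* F) (tt : GaussianInt → F) (B : ℤ) (hB : (q : ℤ) ∣ B)
    (t1 : ∀ α β, tt (α * β) = tt α * tt β) (t2 : tt 1 = 1)
    (t3 : ∀ α : GaussianInt, ¬ (q : ℤ) ∣ α.norm → tt α ^ 4 = 1)
    (t4 : ∀ α : GaussianInt, ¬ (q : ℤ) ∣ α.norm → tt (star α) = tt α ^ 3)
    (t5 : ∀ n : ℤ, ¬ (q : ℤ) ∣ n → tt (n : GaussianInt) = 1)
    (t6 : ∀ α β : GaussianInt, (q : GaussianInt) ∣ α - β → tt α = tt β)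
    (t7 : ∀ (p : ℕ) [Fact p.Prime] (hp4 : p % 4 = 1) (α : GaussianInt) (φ : GaussianInt →+* ZMod p),
      (∀ x, φ x = 0 ↔ α ∣ x) → α.norm = (p : ℤ) → p ≠ q → r (chi φ hp4 (B : ZMod p)) = tt (prim α)) :
    ∃ ε, Sym B (4 * q) ε := by
  classical
  set ε : GaussianInt → GaussianInt := fun α =>
    if IsCoprime α ((4 * q : ℕ) : GaussianInt) then L r (tt (prim α)) else 0 with hε
  have e1 : ∀ α, IsCoprime α ((4 * q : ℕ) : GaussianInt) → ε α = L r (tt (prim α)) := by
    intro α h
    rw [hε]; simp only; rw [if_pos h]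
  have e0 : ∀ α, ¬ IsCoprime α ((4 * q : ℕ) : GaussianInt) → ε α = 0 := by
    intro α h
    rw [hε]; simp only; rw [if_neg h]
  have tp : ∀ α, IsCoprime α ((4 * q : ℕ) : GaussianInt) → tt (prim α) ^ 4 = 1 := by
    intro α h
    rw [cop4 α hq] at h
    exact t3 _ ((prim_norm_dvd h.1).2 h.2)
  have hne : ∀ α, IsCoprime α ((4 * q : ℕ) : GaussianInt) → ε α ≠ 0 := by
    intro α h h0
    rw [e1 α h] at h0
    have := map_L r (Or.inr (tp α h))
    rw [h0, map_zero] at this
    have h4 := tp α h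
    rw [← this] at h4
    norm_num at h4
  refine ⟨ε, ?_⟩
  refine
    { pos := Nat.mul_pos (by norm_num) hq.pos
      bad := ?_, mul := ?_, per := ?_, zero := ?_, U := ?_, unit := ?_, star := ?_, inert := ?_,
      split := ?_ }
  · intro p hp hd
    rcases (hp.dvd_mul).1 hd with h | h
    · have h2 : p ∣ 2 := by
        have : p ∣ 2 ^ 2 := by norm_num; exact h
        exact hp.dvd_of_dvd_pow this
      have : (p : ℤ) ∣ 2 := by exact_mod_cast h2
      exact Dvd.dvd.mul_right this _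
    · have h1 : (p : ℤ) ∣ q := by exact_mod_cast h
      exact Dvd.dvd.mul_left (h1.trans hB) _
  · intro α β
    by_cases h : IsCoprime (α * β) ((4 * q : ℕ) : GaussianInt)
    · have h' := cop_mul.1 h
      rw [e1 _ h, e1 _ h'.1, e1 _ h'.2, prim_mul, t1,
        L_mul h2 r (Or.inr (tp _ h'.1)) (Or.inr (tp _ h'.2))]
    · rw [e0 _ h]
      rw [cop_mul, not_and_or] at h
      rcases h with h | h
      · rw [e0 _ h, zero_mul]
      · rw [e0 _ h, mul_zero]
  · intro α β hd
    by_cases h : IsCoprime α ((4 * q : ℕ) : GaussianInt)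
    · have h' := (cop_congr hd).1 h
      rw [e1 _ h, e1 _ h']
      have hw : w α = w β := by
        apply w_per
        rw [Nat.cast_mul] at hd
        exact dvd_trans (Dvd.intro _ rfl) hd
      have ht : tt (prim α) = tt (prim β) := by
        unfold prim
        rw [t1, t1, hw, t6 α β]
        rw [Nat.cast_mul] at hd
        exact dvd_trans (Dvd.intro_left _ rfl) hd
      rw [ht]
    · have h' := (not_congr (cop_congr hd)).1 h
      rw [e0 _ h, e0 _ h']
  · intro α
    constructor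
    · intro h hc
      exact hne α hc h
    · exact e0 α
  · intro α
    by_cases h : IsCoprime α ((4 * q : ℕ) : GaussianInt)
    · rw [e1 _ h]; exact L_U _ _
    · rw [e0 _ h]; exact U_zero
  · intro u hu
    rw [e1 _ (cop_unit hu _), prim_unit hu, t2, L_one h2]
  · intro α
    by_cases h : IsCoprime α ((4 * q : ℕ) : GaussianInt)
    · have h' := (cop_star α _).2 h
      have hc := (cop4 α hq).1 h
      rw [e1 _ h, e1 _ h', prim_star, t4 _ ((prim_norm_dvd hc.1).2 hc.2), L_pow h2 r (Or.inr (tp α h)),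
        U_star (L_U _ _)]
    · have h' := (not_congr (cop_star α _)).2 h
      rw [e0 _ h, e0 _ h', star_zero]
  · intro p hp hp4 hd
    have hpq : ¬ (q : ℤ) ∣ (p : ℤ) := by
      intro h
      have h1 : q ∣ p := by exact_mod_cast h
      have h2 := (Nat.prime_dvd_prime_iff_eq hq hp).1 h1
      rw [← h2] at hd
      exact hd (Dvd.dvd.mul_left hB _)
    have hc : IsCoprime ((p : ℕ) : GaussianInt) ((4 * q : ℕ) : GaussianInt) := by
      rw [cop4 _ hq]
      constructor
      · rw [Zsqrtd.re_natCast, Zsqrtd.im_natCast]; omega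
      · rw [Zsqrtd.norm_natCast]
        intro h
        rcases (Nat.prime_iff_prime_int.1 hq).dvd_or_dvd h with h | h <;> exact hpq h
    rw [e1 _ hc, prim_three hp4]
    have e : -((p : ℕ) : GaussianInt) = ((-(p : ℤ) : ℤ) : GaussianInt) := by push_cast; rfl
    rw [e, t5 _ (by rwa [dvd_neg]), L_one h2]
  · intro α p hp hd hn
    have hpf : Fact p.Prime := ⟨hp⟩
    have hp2 : p % 2 = 1 := by
      rcases hp.eq_two_or_odd with h | h
      · exact absurd (by rw [h]; exact ⟨B, by push_cast; ring⟩) hd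
      · exact h
    have hp4 := norm_mod4 hn hp2
    have hpq : p ≠ q := by
      intro h
      rw [h] at hd
      exact hd (Dvd.dvd.mul_left hB _)
    have hodd : (α.re + α.im) % 2 = 1 := by
      have := norm_mod2 α
      omega
    have hc : IsCoprime α ((4 * q : ℕ) : GaussianInt) := by
      rw [cop4 _ hq]
      refine ⟨hodd, ?_⟩
      rw [hn]
      intro h
      have h1 : q ∣ p := by exact_mod_cast h
      exact hpq ((Nat.prime_dvd_prime_iff_eq hq hp).1 h1).symm
    obtain ⟨φ, hφ⟩ := exists_red α hn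
    rw [e1 _ hc, split_iff hp4 hφ B (L_U _ _)]
    refine inj4 h2 r (chi_U _ _ _) (L_U _ _) ?_
    rw [t7 p hp4 α φ hφ hn hpq, map_L r (Or.inr (tp α hc))]

end Pool.Agent.Y153.QN3
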