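import Pool.Agent.Y153.QN3.Jac
import Pool.Agent.Y153.QN3.Rec

/-! Project QT, task N3 (arithmetic): Gauss sums of the quartic character in characteristic `q`. -/

set_option autoImplicit false

namespace Pool.Agent.Y153.QN3

open Finset

section
variable {q : ℕ} [hq : Fact q.Prime] {F : Type} [Field F] [CharP F q]

theorem two_ne_F (hq2 : q ≠ 2) : (2 : F) ≠ 0 := by
  intro h
  have h1 : ((2 : ℕ) : F) = 0 := by exact_mod_cast h
  rw [CharP.cast_eq_zero_iff F q] at h1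
  have := Nat.le_of_dvd (by norm_num) h1
  have := hq.out.two_le
  exact hq2 (by omega)

theorem int_pow (n : ℤ) : (n : F) ^ q = n := by
  have h1 : ((n : ZMod q)) ^ q = n := ZMod.pow_card _
  have h2 := congrArg (ZMod.castHom (dvd_refl q) F) h1
  rw [map_pow, map_intCast] at h2
  exact h2

variable (r : GaussianInt →+* F)

theorem r_eq (α : GaussianInt) : r α = (α.re : F) + (α.im : F) * r ⟨0, 1⟩ := by
  have e : α = ((α.re : ℤ) : GaussianInt) + ((α.im : ℤ) : GaussianInt) * ⟨0, 1⟩ := by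
    apply Zsqrtd.ext <;> simp
  conv_lhs => rw [e]
  rw [map_add, map_mul, map_intCast, map_intCast]

theorem r_sq : (r ⟨0, 1⟩) ^ 2 = -1 := by
  rw [← map_pow]
  have : ((⟨0, 1⟩ : GaussianInt)) ^ 2 = -1 := by decide
  rw [this, map_neg, map_one]

theorem r_four : (r ⟨0, 1⟩) ^ 4 = 1 := by
  have : (r ⟨0, 1⟩) ^ 4 = ((r ⟨0, 1⟩) ^ 2) ^ 2 := by ring
  rw [this, r_sq]; ring

theorem r_star (α : GaussianInt) : r (star α) = (α.re : F) - (α.im : F) * r ⟨0, 1⟩ := by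
  rw [r_eq r (star α), Zsqrtd.re_star, Zsqrtd.im_star]
  push_cast
  ring

theorem frob1 (h : q % 4 = 1) (α : GaussianInt) : r α ^ q = r α := by
  rw [r_eq r α, add_pow_char, mul_pow, int_pow, int_pow]
  have : (r ⟨0, 1⟩) ^ q = r ⟨0, 1⟩ := by
    obtain ⟨j, hj⟩ : ∃ j, q = 4 * j + 1 := ⟨q / 4, by omega⟩
    rw [hj, pow_succ, pow_mul, r_four, one_pow, one_mul]
  rw [this]

theorem frob3 (h : q % 4 = 3) (α : GaussianInt) : r α ^ q = r (star α) := by
  rw [r_star r α, r_eq r α, add_pow_char, mul_pow, int_pow, int_pow]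
  have : (r ⟨0, 1⟩) ^ q = -r ⟨0, 1⟩ := by
    obtain ⟨j, hj⟩ : ∃ j, q = 4 * j + 3 := ⟨q / 4, by omega⟩
    rw [hj, pow_add, pow_mul, r_four, one_pow, one_mul, pow_succ, r_sq]
    ring
  rw [this]
  ring

theorem r_norm (α : GaussianInt) : r α * r (star α) = ((α.norm : ℤ) : F) := by
  rw [← map_mul, ← Zsqrtd.norm_eq_mul_conj, map_intCast]

theorem r_norm_ne {α : GaussianInt} (h : ¬ (q : ℤ) ∣ α.norm) : r α * r (star α) ≠ 0 := by
  rw [r_norm]
  rwa [Ne, CharP.intCast_eq_zero_iff F q]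

theorem r_ne {α : GaussianInt} (h : ¬ (q : ℤ) ∣ α.norm) : r α ≠ 0 :=
  left_ne_zero_of_mul (r_norm_ne r h)

theorem r_star_ne {α : GaussianInt} (h : ¬ (q : ℤ) ∣ α.norm) : r (star α) ≠ 0 :=
  right_ne_zero_of_mul (r_norm_ne r h)

variable {p : ℕ} [hp : Fact p.Prime]

/-- the quartic character with values in `F` -/
noncomputable def X (φ : GaussianInt →+* ZMod p) (hp4 : p % 4 = 1) : MulChar (ZMod p) F :=
  (chi φ hp4).ringHomComp r

variable (φ : GaussianInt →+* ZMod p) (hp4 : p % 4 = 1)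

theorem comp_ne_one (hq2 : q ≠ 2) {χ : MulChar (ZMod p) GaussianInt} (hU : ∀ x, U (χ x))
    (h : χ ≠ 1) : χ.ringHomComp r ≠ 1 := by
  intro h1
  apply h
  refine MulChar.ext fun a => ?_
  rw [MulChar.one_apply_coe]
  have h2 : (χ.ringHomComp r) a = 1 := by rw [h1, MulChar.one_apply_coe]
  rw [MulChar.ringHomComp_apply] at h2
  exact inj4 (two_ne_F hq2) r (hU _) U_one (by rw [h2, map_one])

theorem X_four : (X r φ hp4) ^ 4 = 1 := by
  unfold X
  rw [MulChar.ringHomComp_pow, chi_four, MulChar.ringHomComp_one]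

theorem X_ne (hq2 : q ≠ 2) : X r φ hp4 ≠ 1 :=
  comp_ne_one r hq2 (chi_U φ hp4) (chi_ne_one φ hp4)

theorem X_sq_ne (hq2 : q ≠ 2) : (X r φ hp4) ^ 2 ≠ 1 := by
  unfold X
  rw [MulChar.ringHomComp_pow]
  refine comp_ne_one r hq2 (fun x => ?_) (chi_sq_ne_one φ hp4)
  rw [MulChar.pow_apply' _ (by norm_num)]
  exact U_pow (chi_U _ _ _) 2

theorem X_cube_ne (hq2 : q ≠ 2) : X r φ hp4 * (X r φ hp4) ^ 2 ≠ 1 := by
  intro h
  have h4 := X_four r φ hp4
  have : (X r φ hp4) ^ 4 = X r φ hp4 * (X r φ hp4 * (X r φ hp4) ^ 2) := by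
    rw [← pow_succ', ← pow_succ']
  rw [this, h, mul_one] at h4
  exact X_ne r φ hp4 hq2 h4

theorem X_inv : X r φ hp4 * (X r φ hp4) ^ 2 = (X r φ hp4)⁻¹ := by
  rw [← pow_succ', eq_comm, inv_eq_iff_mul_eq_one, ← pow_succ']
  exact X_four r φ hp4

theorem X_neg_one : (X r φ hp4 (-1)) ^ 2 = 1 := by
  unfold X
  rw [MulChar.ringHomComp_apply, ← map_pow, chi_neg_one, map_one]

theorem X_quad : ((X r φ hp4) ^ 2).IsQuadratic := by
  intro a
  unfold X
  rw [MulChar.pow_apply' _ (by norm_num), MulChar.ringHomComp_apply, ← map_pow, chi_sq, map_intCast]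
  by_cases ha : a = 0
  · left; rw [ha]; simp
  · rcases quadraticChar_dichotomy ha with h | h
    · right; left; rw [h]; simp
    · right; right; rw [h]; simp

theorem X_jac {α : GaussianInt} (hφ : ∀ x, φ x = 0 ↔ α ∣ x) (hn : α.norm = (p : ℤ)) :
    jacobiSum (X r φ hp4) ((X r φ hp4) ^ 2) = -r (prim α) := by
  unfold X
  rw [MulChar.ringHomComp_pow, jacobiSum_ringHomComp]
  have := J_eq hφ hn hp4
  unfold J at this
  rw [this, map_neg]

variable {ψ : AddChar (ZMod p) F} (hψ : ψ.IsPrimitive)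

include hψ

theorem card_ne (hpq : p ≠ q) : (p : F) ≠ 0 := by
  rw [Ne, CharP.cast_eq_zero_iff F q]
  intro h
  exact hpq ((Nat.prime_dvd_prime_iff_eq hq.out hp.out).1 h).symm

theorem G_H (hq2 : q ≠ 2) : gaussSum (X r φ hp4) ψ * gaussSum (X r φ hp4)⁻¹ ψ =
    X r φ hp4 (-1) * p := by
  have h1 := gaussSum_mul_gaussSum_eq_card (X_ne r φ hp4 hq2) hψ
  have h2 := mul_gaussSum_inv_eq_gaussSum (X r φ hp4)⁻¹ ψ
  rw [ZMod.card] at h1
  have h3 : (X r φ hp4)⁻¹ (-1) = X r φ hp4 (-1) := by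
    have h4 := X_neg_one r φ hp4
    have h5 : (X r φ hp4)⁻¹ (-1) * X r φ hp4 (-1) = 1 := by
      rw [← MulChar.mul_apply, inv_mul_cancel, MulChar.one_apply (isUnit_one.neg)]
    calc (X r φ hp4)⁻¹ (-1) = (X r φ hp4)⁻¹ (-1) * (X r φ hp4 (-1)) ^ 2 := by rw [h4, mul_one]
      _ = ((X r φ hp4)⁻¹ (-1) * X r φ hp4 (-1)) * X r φ hp4 (-1) := by ring
      _ = _ := by rw [h5, one_mul]
  rw [h3] at h2
  rw [← h2, ← h1]
  ring

theorem G_four (hq2 : q ≠ 2) (hpq : p ≠ q) {α : GaussianInt} (hφ : ∀ x, φ x = 0 ↔ α ∣ x)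
    (hn : α.norm = (p : ℤ)) :
    gaussSum (X r φ hp4) ψ ^ 4 = p * r (prim α) ^ 2 := by
  have h1 := jacobiSum_mul_nontrivial (X_cube_ne r φ hp4 hq2) ψ
  rw [X_inv, X_jac r φ hp4 hφ hn] at h1
  have h2 := gaussSum_sq (X_sq_ne r φ hp4 hq2) (X_quad r φ hp4) hψ
  rw [ZMod.card, MulChar.pow_apply' _ (by norm_num), X_neg_one, one_mul] at h2
  have h3 := G_H r φ hp4 hψ hq2
  set G := gaussSum (X r φ hp4) ψ
  set H := gaussSum (X r φ hp4)⁻¹ ψ
  set K := gaussSum ((X r φ hp4) ^ 2) ψ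
  have h4 : G ^ 2 * K = X r φ hp4 (-1) * p * (-r (prim α)) := by
    calc G ^ 2 * K = G * (G * K) := by ring
      _ = G * (H * -r (prim α)) := by rw [h1]
      _ = (G * H) * (-r (prim α)) := by ring
      _ = _ := by rw [h3]
  have h5 : G ^ 4 * p = (p * r (prim α) ^ 2) * p := by
    calc G ^ 4 * p = (G ^ 2 * K) ^ 2 := by rw [← h2]; ring
      _ = (X r φ hp4 (-1)) ^ 2 * p ^ 2 * r (prim α) ^ 2 := by rw [h4]; ring
      _ = _ := by rw [X_neg_one]; ring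
  exact mul_right_cancel₀ (card_ne hψ hpq) h5

theorem G_ne (hq2 : q ≠ 2) (hpq : p ≠ q) : gaussSum (X r φ hp4) ψ ≠ 0 := by
  have h3 := G_H r φ hp4 hψ hq2
  intro h
  rw [h, zero_mul] at h3
  have h4 : X r φ hp4 (-1) ≠ 0 := by
    intro h0
    have := X_neg_one r φ hp4
    rw [h0] at this
    norm_num at this
  exact mul_ne_zero h4 (card_ne hψ hpq) h3.symm

theorem X_pow {n : ℕ} (h : n % 4 = 1) : (X r φ hp4) ^ n = X r φ hp4 := by
  obtain ⟨j, hj⟩ : ∃ j, n = 4 * j + 1 := ⟨n / 4, by omega⟩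
  rw [hj, pow_succ, pow_mul, X_four, one_pow, one_mul]

theorem X_pow3 {n : ℕ} (h : n % 4 = 3) : (X r φ hp4) ^ n = (X r φ hp4)⁻¹ := by
  obtain ⟨j, hj⟩ : ∃ j, n = 4 * j + 3 := ⟨n / 4, by omega⟩
  rw [hj, pow_add, pow_mul, X_four, one_pow, one_mul, eq_comm, inv_eq_iff_mul_eq_one, ← pow_succ']
  exact X_four r φ hp4

theorem isU (hpq : p ≠ q) : IsUnit (q : ZMod p) := by
  rw [isUnit_iff_ne_zero, Ne, ZMod.natCast_eq_zero_iff]
  intro h
  exact hpq ((Nat.prime_dvd_prime_iff_eq hp.out hq.out).1 h)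

/-- the case `q ≡ 1 (mod 4)` -/
theorem rec1 (hq4 : q % 4 = 1) (hpq : p ≠ q) {α : GaussianInt} (hφ : ∀ x, φ x = 0 ↔ α ∣ x)
    (hn : α.norm = (p : ℤ)) :
    X r φ hp4 (q : ZMod p) = r (prim α) ^ ((q - 1) / 4) * r (star (prim α)) ^ (3 * ((q - 1) / 4)) := by
  have hq2 : q ≠ 2 := by omega
  have hG := G_ne r φ hp4 hψ hq2 hpq
  have h4 := G_four r φ hp4 hψ hq2 hpq hφ hn
  have hodd : (α.re + α.im) % 2 = 1 := by
    have := norm_mod2 α
    omega
  have hpp : r (prim α) * r (star (prim α)) = (p : F) := by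
    rw [r_norm, norm_prim hodd, hn]; simp
  have h1 := gaussSum_frob q (X r φ hp4) ψ
  rw [X_pow r φ hp4 hψ hq4, AddChar.pow_mulShift] at h1
  have h2 := gaussSum_mulShift (X r φ hp4) ψ (isU hψ hpq).unit
  rw [IsUnit.unit_spec, ← h1] at h2
  set G := gaussSum (X r φ hp4) ψ
  set P := r (prim α)
  set P' := r (star (prim α))
  obtain ⟨j, hj⟩ : ∃ j, q = 4 * j + 1 := ⟨q / 4, by omega⟩
  have hj' : (q - 1) / 4 = j := by omega
  have h3 : X r φ hp4 (q : ZMod p) * (G ^ 4) ^ j = 1 := by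
    apply mul_right_cancel₀ hG
    rw [one_mul, ← pow_mul, mul_assoc, ← pow_succ, ← hj]
    exact h2
  rw [h4] at h3
  have h5 : (p : F) ^ (4 * j) = 1 := by
    have h6 := int_pow (q := q) (F := F) (p : ℤ)
    have hp0 := card_ne (F := F) hψ hpq
    apply mul_right_cancel₀ hp0
    rw [one_mul, ← pow_succ, ← hj]
    exact_mod_cast h6
  rw [hj']
  calc X r φ hp4 (q : ZMod p) = X r φ hp4 (q : ZMod p) * (p : F) ^ (4 * j) := by rw [h5, mul_one]
    _ = X r φ hp4 (q : ZMod p) * (p : F) ^ j * ((p : F) ^ j * (p : F) ^ j * (p : F) ^ j) := by ring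
    _ = X r φ hp4 (q : ZMod p) * (p : F) ^ j * ((P * P') ^ j * (P * P') ^ j * (P * P') ^ j) := by
      rw [hpp]
    _ = (X r φ hp4 (q : ZMod p) * (p * P ^ 2) ^ j) * (P ^ j * P' ^ (3 * j)) := by
      rw [mul_pow, mul_pow]; ring
    _ = _ := by rw [h3, one_mul]

/-- the case `q ≡ 3 (mod 4)` -/
theorem rec3 (hq4 : q % 4 = 3) (hpq : p ≠ q) {α : GaussianInt} (hφ : ∀ x, φ x = 0 ↔ α ∣ x)
    (hn : α.norm = (p : ℤ)) :
    X r φ hp4 (-(q : ZMod p)) = r (prim α) ^ ((q ^ 2 - 1) / 4) := by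
  have hq2 : q ≠ 2 := by omega
  have hG := G_ne r φ hp4 hψ hq2 hpq
  have h4 := G_four r φ hp4 hψ hq2 hpq hφ hn
  have hGH := G_H r φ hp4 hψ hq2
  have hodd : (α.re + α.im) % 2 = 1 := by
    have := norm_mod2 α
    omega
  have hpp : r (prim α) * r (prim α) ^ q = (p : F) := by
    rw [frob3 r hq4, r_norm, norm_prim hodd, hn]; simp
  have h1 := gaussSum_frob q (X r φ hp4) ψ
  rw [X_pow3 r φ hp4 hψ hq4, AddChar.pow_mulShift] at h1
  have h2 := gaussSum_mulShift (X r φ hp4)⁻¹ ψ (isU hψ hpq).unit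
  rw [IsUnit.unit_spec, ← h1] at h2
  rw [← h2] at hGH
  have hXq : X r φ hp4 (q : ZMod p) * (X r φ hp4)⁻¹ (q : ZMod p) = 1 := by
    rw [← MulChar.mul_apply, mul_inv_cancel, MulChar.one_apply (isU hψ hpq)]
  have hneg : X r φ hp4 (-(q : ZMod p)) = X r φ hp4 (-1) * X r φ hp4 (q : ZMod p) := by
    rw [← map_mul]; congr 1; ring
  set G := gaussSum (X r φ hp4) ψ
  set P := r (prim α)
  obtain ⟨j, hj⟩ : ∃ j, q = 4 * j + 3 := ⟨q / 4, by omega⟩
  have hj' : (q ^ 2 - 1) / 4 = (4 * j + 2) * (j + 1) := by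
    rw [hj]
    have : (4 * j + 3) ^ 2 - 1 = 4 * ((4 * j + 2) * (j + 1)) := by
      rw [Nat.sub_eq_iff_eq_add (Nat.one_le_pow _ _ (by omega))]; ring
    rw [this]; omega
  have h3 : X r φ hp4 (-(q : ZMod p)) * p = (G ^ 4) ^ (j + 1) := by
    calc X r φ hp4 (-(q : ZMod p)) * p = X r φ hp4 (q : ZMod p) * (X r φ hp4 (-1) * p) := by
          rw [hneg]; ring
      _ = X r φ hp4 (q : ZMod p) * (G * ((X r φ hp4)⁻¹ (q : ZMod p) * G ^ q)) := by rw [hGH]
      _ = (X r φ hp4 (q : ZMod p) * (X r φ hp4)⁻¹ (q : ZMod p)) * (G * G ^ q) := by ring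
      _ = G * G ^ q := by rw [hXq, one_mul]
      _ = _ := by
        rw [← pow_succ', ← pow_mul]
        congr 1
        omega
  rw [h4, ← hpp] at h3
  have hP : P * P ^ q ≠ 0 := by
    rw [hpp]; exact card_ne hψ hpq
  rw [hj']
  apply mul_right_cancel₀ hP
  rw [h3, hj]
  ring

end

end Pool.Agent.Y153.QN3
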