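import Pool.Agent.Y153.QN3.Chi

/-! Project QT, task N3 (arithmetic): the Jacobi sum of the quartic character. -/

set_option autoImplicit false

namespace Pool.Agent.Y153.QN3

open Finset

section
variable {p : ℕ} [hp : Fact p.Prime]

/-- the Jacobi sum `J(χ, χ²)` -/
noncomputable def J (φ : GaussianInt →+* ZMod p) (hp4 : p % 4 = 1) : GaussianInt :=
  jacobiSum (chi φ hp4) ((chi φ hp4) ^ 2)

theorem sum_poly_zero (k : ℕ) (hk : 3 * k < p - 1) :
    ∑ x : ZMod p, x ^ k * (1 - x) ^ (2 * k) = 0 := by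
  have h1 : ∀ x : ZMod p, x ^ k * (1 - x) ^ (2 * k) =
      ∑ j ∈ range (2 * k + 1), ((-1) ^ j * ((2 * k).choose j : ZMod p)) * x ^ (k + j) := by
    intro x
    have e : (1 - x) ^ (2 * k) = (-x + 1) ^ (2 * k) := by ring
    rw [e, add_pow, mul_sum]
    refine sum_congr rfl fun j _ => ?_
    rw [one_pow, mul_one, neg_pow, pow_add]
    ring
  rw [sum_congr rfl fun x _ => h1 x, sum_comm]
  refine sum_eq_zero fun j hj => ?_
  rw [← mul_sum]
  have h2 : ∑ x : ZMod p, x ^ (k + j) = 0 := by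
    apply FiniteField.sum_pow_lt_card_sub_one
    rw [ZMod.card]
    have := mem_range.1 hj
    omega
  rw [h2, mul_zero]

theorem map_J (φ : GaussianInt →+* ZMod p) (hp4 : p % 4 = 1) : φ (J φ hp4) = 0 := by
  have h5 : 5 ≤ p := by
    have := hp.out.two_le
    omega
  unfold J jacobiSum
  rw [map_sum]
  rw [← sum_poly_zero (p := p) ((p - 1) / 4) (by omega)]
  refine sum_congr rfl fun x _ => ?_
  rw [map_mul, map_chi, MulChar.pow_apply' _ (by norm_num), map_pow, map_chi, ← pow_mul,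
    mul_comm ((p - 1) / 4) 2]

theorem aux_sum {F R : Type*} [Field F] [Fintype F] [DecidableEq F] [CommRing R]
    (χ ψ : MulChar F R) :
    jacobiSum χ ψ = ∑ x : F, χ x + ∑ x : F, ψ x - Fintype.card F +
                      ∑ x ∈ univ \ {0, 1}, (χ x - 1) * (ψ (1 - x) - 1) := by
  rw [jacobiSum]
  conv =>
    enter [1, 2, x]
    rw [show ∀ x y : R, x * y = x + y - 1 + (x - 1) * (y - 1) by intros; ring]
  rw [sum_add_distrib, sum_sub_distrib, sum_add_distrib]
  conv => enter [1, 1, 1, 2, 2, x]; rw [← Equiv.subLeft_apply 1]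
  rw [(Equiv.subLeft 1).sum_comp ψ, Fintype.card_eq_sum_ones, Nat.cast_sum, Nat.cast_one,
    sum_sdiff_eq_sub (subset_univ _), ← sub_zero (_ - _ + _), add_sub_assoc]
  congr
  rw [sum_pair zero_ne_one, sub_zero, ψ.map_one, χ.map_one, sub_self, mul_zero, zero_mul, add_zero]

theorem U_sub_one {u : GaussianInt} (hu : u ^ 4 = 1) : (⟨1, 1⟩ : GaussianInt) ∣ u - 1 := by
  rcases U_cases (Or.inr hu) with h | h | h | h | h
  · rw [h] at hu; simp at hu
  · exact ⟨0, by rw [h]; decide⟩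
  · exact ⟨⟨-1, 1⟩, by rw [h]; decide⟩
  · exact ⟨⟨0, 1⟩, by rw [h]; decide⟩
  · exact ⟨-1, by rw [h]; decide⟩

theorem J_mod (φ : GaussianInt →+* ZMod p) (hp4 : p % 4 = 1) :
    (⟨2, 2⟩ : GaussianInt) ∣ J φ hp4 + 1 := by
  classical
  unfold J
  rw [aux_sum, MulChar.sum_eq_zero_of_ne_one (chi_ne_one φ hp4),
    MulChar.sum_eq_zero_of_ne_one (chi_sq_ne_one φ hp4), ZMod.card]
  have h1 : (⟨2, 2⟩ : GaussianInt) ∣ ∑ x ∈ univ \ {(0 : ZMod p), 1},
      (chi φ hp4 x - 1) * (((chi φ hp4) ^ 2) (1 - x) - 1) := by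
    refine dvd_sum fun x hx => ?_
    simp only [mem_sdiff, mem_univ, mem_insert, mem_singleton, true_and, not_or] at hx
    have hx1 : 1 - x ≠ 0 := fun h => hx.2 (sub_eq_zero.1 h).symm
    have h2 := U_sub_one (chi_pow_four φ hp4 hx.1)
    have h3 : (2 : GaussianInt) ∣ ((chi φ hp4) ^ 2) (1 - x) - 1 := by
      rw [MulChar.pow_apply' _ (by norm_num), chi_sq]
      rcases quadraticChar_dichotomy hx1 with h | h
      · rw [h]; simp
      · rw [h]; exact ⟨-1, by decide⟩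
    have h4 : (⟨2, 2⟩ : GaussianInt) = ⟨1, 1⟩ * 2 := by decide
    rw [h4]
    exact mul_dvd_mul h2 h3
  have h5 : (⟨2, 2⟩ : GaussianInt) ∣ 1 - (p : GaussianInt) := by
    obtain ⟨k, hk⟩ : ∃ k, p = 4 * k + 1 := ⟨p / 4, by omega⟩
    refine ⟨⟨1, -1⟩ * (-(k : GaussianInt)), ?_⟩
    rw [hk]
    have e : (⟨2, 2⟩ : GaussianInt) * (⟨1, -1⟩ * (-(k : GaussianInt))) =
      (⟨2, 2⟩ * ⟨1, -1⟩) * (-(k : GaussianInt)) := by ring
    have e2 : (⟨2, 2⟩ * ⟨1, -1⟩ : GaussianInt) = 4 := by decide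
    rw [e, e2]
    push_cast
    ring
  have e : (0 : GaussianInt) + 0 - (p : GaussianInt) + (∑ x ∈ univ \ {(0 : ZMod p), 1},
      (chi φ hp4 x - 1) * (((chi φ hp4) ^ 2) (1 - x) - 1)) + 1 =
      (1 - (p : GaussianInt)) + ∑ x ∈ univ \ {(0 : ZMod p), 1},
      (chi φ hp4 x - 1) * (((chi φ hp4) ^ 2) (1 - x) - 1) := by ring
  rw [e]
  exact dvd_add h5 h1

theorem J_norm (φ : GaussianInt →+* ZMod p) (hp4 : p % 4 = 1) : (J φ hp4).norm = (p : ℤ) := by
  have hinj : Function.Injective GaussianInt.toComplex := GaussianInt.toComplex_injective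
  set χ := (chi φ hp4).ringHomComp GaussianInt.toComplex with hχ
  set ψ := ((chi φ hp4) ^ 2).ringHomComp GaussianInt.toComplex with hψ
  have hJ : jacobiSum χ ψ = GaussianInt.toComplex (J φ hp4) := by
    rw [hχ, hψ, jacobiSum_ringHomComp]
    rfl
  have h1 : χ ≠ 1 := (MulChar.ringHomComp_ne_one_iff hinj).2 (chi_ne_one φ hp4)
  have h2 : ψ ≠ 1 := (MulChar.ringHomComp_ne_one_iff hinj).2 (chi_sq_ne_one φ hp4)
  have h3 : χ * ψ ≠ 1 := by
    rw [hχ, hψ, ← MulChar.ringHomComp_mul]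
    exact (MulChar.ringHomComp_ne_one_iff hinj).2 (chi_cube_ne_one φ hp4)
  have hc : ringChar ℂ ≠ ringChar (ZMod p) := by
    rw [ZMod.ringChar_zmod_n, ringChar.eq_zero]
    exact hp.out.ne_zero.symm
  have h4 := jacobiSum_mul_jacobiSum_inv hc h1 h2 h3
  have h5 : jacobiSum χ⁻¹ ψ⁻¹ = (starRingEnd ℂ) (jacobiSum χ ψ) := by
    unfold jacobiSum
    rw [map_sum]
    refine sum_congr rfl fun x _ => ?_
    rw [map_mul, ← MulChar.star_apply', ← MulChar.star_apply']
    rfl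
  rw [h5, hJ, ZMod.card, Complex.mul_conj, ← GaussianInt.intCast_complex_norm] at h4
  exact_mod_cast h4

/-- `J(χ, χ²) = -π` for `π` primary -/
theorem J_eq {α : GaussianInt} {φ : GaussianInt →+* ZMod p} (hφ : ∀ x, φ x = 0 ↔ α ∣ x)
    (hn : α.norm = (p : ℤ)) (hp4 : p % 4 = 1) : J φ hp4 = -prim α := by
  have hodd : (α.re + α.im) % 2 = 1 := by
    have := norm_mod2 α
    omega
  have h1 : α ∣ J φ hp4 := (hφ _).1 (map_J φ hp4)
  have hpa : prim α ∣ J φ hp4 := by
    unfold prim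
    exact ((w_isUnit hodd).mul_left_dvd).2 h1
  obtain ⟨u, hu⟩ := hpa
  have hu1 : u.norm = 1 := by
    have h2 := J_norm φ hp4
    rw [hu, Zsqrtd.norm_mul, norm_prim hodd, hn] at h2
    have hp0 : (p : ℤ) ≠ 0 := by exact_mod_cast hp.out.ne_zero
    exact mul_left_cancel₀ hp0 (by rw [h2, mul_one])
  have hunit : IsUnit u := (Zsqrtd.norm_eq_one_iff).1 (by rw [hu1]; rfl)
  have h3 := J_mod φ hp4
  rw [hu] at h3
  have h4 := prim_dvd hodd
  have h5 : (⟨2, 2⟩ : GaussianInt) ∣ u + 1 := by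
    have e : u + 1 = (prim α * u + 1) - (prim α - 1) * u := by ring
    rw [e]
    exact dvd_sub h3 (Dvd.dvd.mul_right h4 _)
  obtain ⟨c, hc⟩ := h5
  have h6 : (u + 1).norm = 8 * c.norm := by
    rw [hc, Zsqrtd.norm_mul]
    rfl
  have h7 : u = -1 := by
    rcases U_cases (Or.inr (U_unit hunit)) with h | h | h | h | h
    · rw [h] at hunit; exact absurd hunit (by simp)
    · exfalso
      rw [h] at h6
      have e : ((1 : GaussianInt) + 1).norm = 4 := by decide
      rw [e] at h6; omega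
    · exact h
    · exfalso
      rw [h] at h6
      have e : ((⟨0, 1⟩ : GaussianInt) + 1).norm = 2 := by decide
      rw [e] at h6; omega
    · exfalso
      rw [h] at h6
      have e : ((⟨0, -1⟩ : GaussianInt) + 1).norm = 2 := by decide
      rw [e] at h6; omega
  rw [hu, h7]
  ring

end

end Pool.Agent.Y153.QN3
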