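import Mathlib

/-! Project QT, task N3 (arithmetic): fourth roots of unity in `ℤ[i]` and in domains. -/

set_option autoImplicit false

namespace Pool.Agent.Y153.QN3

/-- zero or a fourth root of unity -/
def U (u : GaussianInt) : Prop := u = 0 ∨ u ^ 4 = 1

theorem U_zero : U 0 := Or.inl rfl
theorem U_one : U 1 := Or.inr (by simp)

theorem U_mul {u v : GaussianInt} (hu : U u) (hv : U v) : U (u * v) := by
  rcases hu with h | h
  · left; rw [h, zero_mul]
  rcases hv with h' | h'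
  · left; rw [h', mul_zero]
  · right; rw [mul_pow, h, h', one_mul]

theorem U_cases {u : GaussianInt} (h : U u) :
    u = 0 ∨ u = 1 ∨ u = -1 ∨ u = ⟨0, 1⟩ ∨ u = ⟨0, -1⟩ := by
  rcases h with h | h
  · exact Or.inl h
  · have h1 : (u - 1) * (u + 1) * (u - ⟨0, 1⟩) * (u - ⟨0, -1⟩) = 0 := by
      have e : ((⟨0, 1⟩ : GaussianInt)) * ⟨0, -1⟩ = 1 := by decide
      have e2 : ((⟨0, 1⟩ : GaussianInt)) + ⟨0, -1⟩ = 0 := by decide
      have e3 : (u - ⟨0, 1⟩) * (u - ⟨0, -1⟩) = u ^ 2 + 1 := by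
        have : (u - ⟨0, 1⟩) * (u - ⟨0, -1⟩) = u ^ 2 - u * ((⟨0, 1⟩ : GaussianInt) + ⟨0, -1⟩) +
          ((⟨0, 1⟩ : GaussianInt)) * ⟨0, -1⟩ := by ring
        rw [this, e, e2]; ring
      have : (u - 1) * (u + 1) * (u - ⟨0, 1⟩) * (u - ⟨0, -1⟩) =
        (u - 1) * (u + 1) * ((u - ⟨0, 1⟩) * (u - ⟨0, -1⟩)) := by ring
      rw [this, e3]
      have : (u - 1) * (u + 1) * (u ^ 2 + 1) = u ^ 4 - 1 := by ring
      rw [this, h, sub_self]
    rcases mul_eq_zero.1 h1 with h2 | h2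
    · rcases mul_eq_zero.1 h2 with h3 | h3
      · rcases mul_eq_zero.1 h3 with h4 | h4
        · exact Or.inr (Or.inl (sub_eq_zero.1 h4))
        · exact Or.inr (Or.inr (Or.inl (eq_neg_of_add_eq_zero_left h4)))
      · exact Or.inr (Or.inr (Or.inr (Or.inl (sub_eq_zero.1 h3))))
    · exact Or.inr (Or.inr (Or.inr (Or.inr (sub_eq_zero.1 h2))))

theorem U_star {u : GaussianInt} (h : U u) : star u = u ^ 3 := by
  rcases U_cases h with h | h | h | h | h <;> subst h <;> decide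

theorem U_of_star {u : GaussianInt} (h : U u) : U (star u) := by
  rw [U_star h]
  rcases h with h | h
  · left; rw [h]; simp
  · right
    rw [← pow_mul, mul_comm, pow_mul, h, one_pow]

theorem U_pow {u : GaussianInt} (h : U u) (n : ℕ) : U (u ^ n) := by
  induction n with
  | zero => simpa using U_one
  | succ n ih => rw [pow_succ]; exact U_mul ih h

theorem U_neg {u : GaussianInt} (h : U u) : U (-u) := by
  rcases h with h | h
  · left; rw [h, neg_zero]
  · right
    have : (-u) ^ 4 = u ^ 4 := by ring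
    rw [this, h]

theorem U_unit {u : GaussianInt} (h : IsUnit u) : u ^ 4 = 1 := by
  have h1 : u.norm.natAbs = 1 := (Zsqrtd.norm_eq_one_iff).2 h
  have h2 : u.norm = 1 := by
    have h3 : 0 ≤ u.norm := GaussianInt.norm_nonneg u
    omega
  rw [Zsqrtd.norm_def] at h2
  have h3 : u.re * u.re + u.im * u.im = 1 := by linarith
  have hx : u.re ≤ 1 := by nlinarith [mul_self_nonneg u.im, mul_self_nonneg u.re]
  have hx' : -1 ≤ u.re := by nlinarith [mul_self_nonneg u.im, mul_self_nonneg u.re]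
  have hy : u.im ≤ 1 := by nlinarith [mul_self_nonneg u.im, mul_self_nonneg u.re]
  have hy' : -1 ≤ u.im := by nlinarith [mul_self_nonneg u.im, mul_self_nonneg u.re]
  obtain ⟨x, y⟩ := u
  simp only at h3 hx hx' hy hy'
  interval_cases x <;> interval_cases y <;> first | (exfalso; omega) | decide

theorem isUnit_of_pow {u : GaussianInt} (h : u ^ 4 = 1) : IsUnit u :=
  IsUnit.of_mul_eq_one (u ^ 3) (by rw [← pow_succ', h])

section
variable {R : Type*} [CommRing R] [IsDomain R]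

theorem inj4 (h2 : (2 : R) ≠ 0) (φ : GaussianInt →+* R) {u v : GaussianInt} (hu : U u) (hv : U v)
    (h : φ u = φ v) : u = v := by
  have h0 : φ (u - v) = 0 := by rw [map_sub, h, sub_self]
  have h1 : φ ((u - v) * star (u - v)) = 0 := by rw [map_mul, h0, zero_mul]
  have e : (u - v) * star (u - v) = (((u - v).norm : ℤ) : GaussianInt) :=
    (Zsqrtd.norm_eq_mul_conj (u - v)).symm
  rw [e, map_intCast] at h1
  have h4 : ((4 : ℤ) : R) ≠ 0 := by
    have : ((4 : ℤ) : R) = 2 * 2 := by norm_num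
    rw [this]
    exact mul_ne_zero h2 h2
  have h1' : ((1 : ℤ) : R) ≠ 0 := by simp
  have h2' : ((2 : ℤ) : R) ≠ 0 := by simpa using h2
  by_contra hne
  have key : (u - v).norm = 1 ∨ (u - v).norm = 2 ∨ (u - v).norm = 4 := by
    rcases U_cases hu with hu | hu | hu | hu | hu <;> rcases U_cases hv with hv | hv | hv | hv | hv <;>
      subst hu <;> subst hv <;> first | exact absurd rfl hne | decide
  rcases key with k | k | k <;> rw [k] at h1
  · exact h1' h1
  · exact h2' h1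
  · exact h4 h1

theorem surj4 (φ : GaussianInt →+* R) {z : R} (h : z = 0 ∨ z ^ 4 = 1) :
    ∃ u, U u ∧ φ u = z := by
  rcases h with h | h
  · exact ⟨0, U_zero, by rw [h, map_zero]⟩
  · have hi : (φ ⟨0, 1⟩) ^ 2 = -1 := by
      rw [← map_pow]
      have : ((⟨0, 1⟩ : GaussianInt)) ^ 2 = -1 := by decide
      rw [this, map_neg, map_one]
    have h1 : (z - 1) * (z + 1) * (z - φ ⟨0, 1⟩) * (z + φ ⟨0, 1⟩) = 0 := by
      have : (z - 1) * (z + 1) * (z - φ ⟨0, 1⟩) * (z + φ ⟨0, 1⟩) =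
        (z ^ 2 - 1) * (z ^ 2 - (φ ⟨0, 1⟩) ^ 2) := by ring
      rw [this, hi]
      have : (z ^ 2 - 1) * (z ^ 2 - -1) = z ^ 4 - 1 := by ring
      rw [this, h, sub_self]
    rcases mul_eq_zero.1 h1 with h2 | h2
    · rcases mul_eq_zero.1 h2 with h3 | h3
      · rcases mul_eq_zero.1 h3 with h4 | h4
        · exact ⟨1, U_one, by rw [map_one]; exact (sub_eq_zero.1 h4).symm⟩
        · refine ⟨-1, U_neg U_one, ?_⟩
          rw [map_neg, map_one]
          exact (eq_neg_of_add_eq_zero_left h4).symm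
      · exact ⟨⟨0, 1⟩, Or.inr (by decide), (sub_eq_zero.1 h3).symm⟩
    · refine ⟨⟨0, -1⟩, Or.inr (by decide), ?_⟩
      have : (⟨0, -1⟩ : GaussianInt) = -⟨0, 1⟩ := by decide
      rw [this, map_neg]
      exact (eq_neg_of_add_eq_zero_left h2).symm

open Classical in
/-- the lift to `ℤ[i]` of a fourth root of unity -/
noncomputable def L (φ : GaussianInt →+* R) (z : R) : GaussianInt :=
  if h : ∃ u, U u ∧ φ u = z then h.choose else 0

theorem L_U (φ : GaussianInt →+* R) (z : R) : U (L φ z) := by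
  unfold L
  split_ifs with h
  · exact h.choose_spec.1
  · exact U_zero

theorem map_L (φ : GaussianInt →+* R) {z : R} (h : z = 0 ∨ z ^ 4 = 1) : φ (L φ z) = z := by
  unfold L
  rw [dif_pos (surj4 φ h)]
  exact (surj4 φ h).choose_spec.2

theorem L_eq (h2 : (2 : R) ≠ 0) (φ : GaussianInt →+* R) {z : R} {u : GaussianInt} (hu : U u)
    (h : φ u = z) : L φ z = u := by
  have hz : ∃ u, U u ∧ φ u = z := ⟨u, hu, h⟩
  have e : L φ z = hz.choose := by unfold L; rw [dif_pos hz]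
  rw [e]
  exact inj4 h2 φ hz.choose_spec.1 hu (hz.choose_spec.2.trans h.symm)

theorem L_mul (h2 : (2 : R) ≠ 0) (φ : GaussianInt →+* R) {z w : R} (hz : z = 0 ∨ z ^ 4 = 1)
    (hw : w = 0 ∨ w ^ 4 = 1) : L φ (z * w) = L φ z * L φ w :=
  L_eq h2 φ (U_mul (L_U φ z) (L_U φ w)) (by rw [map_mul, map_L φ hz, map_L φ hw])

theorem L_pow (h2 : (2 : R) ≠ 0) (φ : GaussianInt →+* R) {z : R} (hz : z = 0 ∨ z ^ 4 = 1) (n : ℕ) :
    L φ (z ^ n) = L φ z ^ n :=
  L_eq h2 φ (U_pow (L_U φ z) n) (by rw [map_pow, map_L φ hz])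

theorem L_one (h2 : (2 : R) ≠ 0) (φ : GaussianInt →+* R) : L φ 1 = 1 :=
  L_eq h2 φ U_one (map_one φ)

theorem L_zero (h2 : (2 : R) ≠ 0) (φ : GaussianInt →+* R) : L φ 0 = 0 :=
  L_eq h2 φ U_zero (map_zero φ)

end

end Pool.Agent.Y153.QN3
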