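import Pool.Agent.Y153.QN3.Sym

/-! Project QT, task N3 (arithmetic): the symbol `(-1/α)₄`. -/

set_option autoImplicit false

namespace Pool.Agent.Y153.QN3

/-- `(-1/α)₄` as a function of `α` modulo `4` -/
def nf (x y : ZMod 4) : GaussianInt :=
  if (x = 0 ∧ (y = 1 ∨ y = 3)) ∨ (y = 0 ∧ (x = 1 ∨ x = 3)) then 1 else
  if (x = 2 ∧ (y = 1 ∨ y = 3)) ∨ (y = 2 ∧ (x = 1 ∨ x = 3)) then -1 else 0

theorem nf_mul : ∀ x y z t : ZMod 4, nf (x * z + -1 * y * t) (x * t + y * z) = nf x y * nf z t := by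
  decide +kernel

theorem nf_star : ∀ x y : ZMod 4, nf x (-y) = star (nf x y) := by
  decide +kernel

theorem nf_U : ∀ x y : ZMod 4, nf x y = 0 ∨ nf x y ^ 4 = 1 := by
  decide +kernel

theorem nf_zero : ∀ x y : ZMod 4, nf x y = 0 ↔ (x + y = 0 ∨ x + y = 2) := by
  decide +kernel

theorem zm4 (n : ℤ) (c : ℕ) (hc : c < 4) : ((n : ZMod 4) = c ↔ n % 4 = c) := by
  rw [show ((c : ℕ) : ZMod 4) = ((c : ℤ) : ZMod 4) by simp, ZMod.intCast_eq_intCast_iff']
  have : ((c : ℤ)) % ((4 : ℕ) : ℤ) = c := by omega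
  rw [this]
  norm_num

/-- squares modulo `8` -/
theorem sq8 (n : ℤ) : (n % 4 = 0 → n * n % 8 = 0) ∧ (n % 4 = 2 → n * n % 8 = 4) ∧
    (n % 2 = 1 → n * n % 8 = 1) := by
  refine ⟨fun h => ?_, fun h => ?_, fun h => ?_⟩
  · obtain ⟨k, hk⟩ : ∃ k, n = 4 * k := ⟨n / 4, by omega⟩
    subst hk
    have : 4 * k * (4 * k) = 8 * (2 * k * k) := by ring
    rw [this]; omega
  · obtain ⟨k, hk⟩ : ∃ k, n = 4 * k + 2 := ⟨n / 4, by omega⟩
    subst hk
    have : (4 * k + 2) * (4 * k + 2) = 8 * (2 * k * k + 2 * k) + 4 := by ring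
    rw [this]; omega
  · have h8 : n % 8 = 1 ∨ n % 8 = 3 ∨ n % 8 = 5 ∨ n % 8 = 7 := by omega
    rcases h8 with h | h | h | h <;> simp [Int.mul_emod, h]

theorem nf_split (α : GaussianInt) (p : ℕ) (hn : α.norm = (p : ℤ)) (hp : p % 2 = 1) :
    (((-1 : ℤ) : GaussianInt)) ^ ((p - 1) / 4) = nf α.re α.im := by
  have hodd : (α.re + α.im) % 2 = 1 := by
    have := norm_mod2 α
    omega
  have hn' : α.re * α.re + α.im * α.im = p := by
    rw [← hn, Zsqrtd.norm_def]; ring
  have key : ∀ x y : ℤ, x % 2 = 1 → x * x + y * y = p →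
      (y % 4 = 0 ∧ ((p - 1) / 4) % 2 = 0) ∨ (y % 4 = 2 ∧ ((p - 1) / 4) % 2 = 1) := by
    intro x y hx hxy
    have h1 := (sq8 x).2.2 hx
    have h2 : y % 2 = 0 := by
      by_contra h3
      have h4 : y % 2 = 1 := by omega
      have h5 := (sq8 y).2.2 h4
      omega
    have h6 : y % 4 = 0 ∨ y % 4 = 2 := by omega
    rcases h6 with h | h
    · have := (sq8 y).1 h
      left; refine ⟨h, ?_⟩; omega
    · have := (sq8 y).2.1 h
      right; refine ⟨h, ?_⟩; omega
  have hpow : ∀ n : ℕ, (n % 2 = 0 → (((-1 : ℤ) : GaussianInt)) ^ n = 1) ∧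
      (n % 2 = 1 → (((-1 : ℤ) : GaussianInt)) ^ n = -1) := by
    intro n
    constructor
    · intro h
      have : Even n := Nat.even_iff.2 h
      push_cast
      exact this.neg_one_pow
    · intro h
      have : Odd n := Nat.odd_iff.2 h
      push_cast
      exact this.neg_one_pow
  have odd4 : ∀ n : ℤ, n % 2 = 1 → ((n : ZMod 4) = 1 ∨ (n : ZMod 4) = 3) := by
    intro n h
    have e1 := zm4 n 1 (by norm_num)
    have e3 := zm4 n 3 (by norm_num)
    push_cast at e1 e3
    rw [e1, e3]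
    omega
  by_cases hx : α.re % 2 = 1
  · have hx4 := odd4 α.re hx
    rcases key α.re α.im hx hn' with ⟨h, h'⟩ | ⟨h, h'⟩
    · have hy4 : ((α.im : ℤ) : ZMod 4) = 0 := by simpa using (zm4 α.im 0 (by norm_num)).2 h
      rw [(hpow _).1 h', hy4]
      rcases hx4 with e | e <;> rw [e] <;> decide +kernel
    · have hy4 : ((α.im : ℤ) : ZMod 4) = 2 := by simpa using (zm4 α.im 2 (by norm_num)).2 h
      rw [(hpow _).2 h', hy4]
      rcases hx4 with e | e <;> rw [e] <;> decide +kernel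
  · have hy : α.im % 2 = 1 := by omega
    have hy4 := odd4 α.im hy
    rcases key α.im α.re hy (by rw [add_comm]; exact hn') with ⟨h, h'⟩ | ⟨h, h'⟩
    · have hx4 : ((α.re : ℤ) : ZMod 4) = 0 := by simpa using (zm4 α.re 0 (by norm_num)).2 h
      rw [(hpow _).1 h', hx4]
      rcases hy4 with e | e <;> rw [e] <;> decide +kernel
    · have hx4 : ((α.re : ℤ) : ZMod 4) = 2 := by simpa using (zm4 α.re 2 (by norm_num)).2 h
      rw [(hpow _).2 h', hx4]
      rcases hy4 with e | e <;> rw [e] <;> decide +kernel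

theorem Sym_neg : Sym (-1) 4 (fun α => nf α.re α.im) where
  pos := by norm_num
  bad := by
    intro p hp h
    have h2 : p ∣ 2 := by
      have : p ∣ 2 ^ 2 := by norm_num; exact h
      exact hp.dvd_of_dvd_pow this
    have : (p : ℤ) ∣ 2 := by exact_mod_cast h2
    exact this.trans ⟨-1, by ring⟩
  mul := by
    intro α β
    rw [Zsqrtd.re_mul, Zsqrtd.im_mul]
    push_cast
    exact nf_mul _ _ _ _
  per := by
    intro α β h
    obtain ⟨h1, h2⟩ := re_dvd h
    rw [h1, h2]
  zero := by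
    intro α
    rw [nf_zero, ← Int.cast_add, two_iff]
    have := cop_two_pow α (k := 2) (by norm_num)
    norm_num at this
    norm_num
    rw [this]
    omega
  U := fun α => nf_U _ _
  unit := by
    intro u hu
    rcases U_cases (Or.inr (U_unit hu)) with h | h | h | h | h
    · subst h; exact absurd hu (by simp)
    all_goals subst h; decide +kernel
  star := by
    intro α
    rw [Zsqrtd.re_star, Zsqrtd.im_star]
    push_cast
    exact nf_star _ _
  inert := by
    intro p hp hp4 _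
    rw [Zsqrtd.re_natCast, Zsqrtd.im_natCast]
    have h : (((p : ℤ) : ℤ) : ZMod 4) = 3 := by
      have : ((p : ℤ) : ZMod 4) = ((3 : ℤ) : ZMod 4) := by
        rw [ZMod.intCast_eq_intCast_iff']
        push_cast
        omega
      rw [this]; rfl
    rw [h]
    decide +kernel
  split := by
    intro α p hp hd hn
    have hp2 : p % 2 = 1 := by
      rcases hp.eq_two_or_odd with h | h
      · exact absurd (by rw [h]; exact ⟨-1, by ring⟩) hd
      · exact h
    have := nf_split α p hn hp2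
    push_cast at this ⊢
    rw [this, sub_self]
    exact dvd_zero _

end Pool.Agent.Y153.QN3
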