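import Pool.Agent.Y153.QN3.Jac
import Pool.Agent.Y691.QT.ApTw

/-! Project QT, task N3 (arithmetic): number of points of `y² = x³ + A x` modulo `p ≡ 1 (mod 4)`. -/

set_option autoImplicit false

namespace Pool.Agent.Y153.QN3

open Finset Pool.Agent.Y19.QT

section
variable {p : ℕ} [hp : Fact p.Prime]

theorem sum_sq (hp2 : p ≠ 2) {R : Type*} [CommRing R] (F : ZMod p → R) :
    ∑ x : ZMod p, F (x ^ 2) = ∑ y : ZMod p, ((quadraticChar (ZMod p) y + 1 : ℤ) : R) * F y := by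
  classical
  have hc : ringChar (ZMod p) ≠ 2 := by rwa [ZMod.ringChar_zmod_n]
  rw [← Finset.sum_fiberwise univ (fun x : ZMod p => x ^ 2) (fun x => F (x ^ 2))]
  refine sum_congr rfl fun y _ => ?_
  have h1 : ∑ x ∈ univ.filter (fun x : ZMod p => x ^ 2 = y), F (x ^ 2) =
      ∑ x ∈ univ.filter (fun x : ZMod p => x ^ 2 = y), F y := by
    refine sum_congr rfl fun x hx => ?_
    rw [(mem_filter.1 hx).2]
  rw [h1, sum_const, nsmul_eq_mul]
  congr 1
  rw [← quadraticChar_card_sqrts hc y]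
  have : univ.filter (fun x : ZMod p => x ^ 2 = y) = {x : ZMod p | x ^ 2 = y}.toFinset := by
    ext x; simp
  rw [this]
  simp

theorem S_eq (φ : GaussianInt →+* ZMod p) (hp4 : p % 4 = 1) (A : ZMod p) (hA : A ≠ 0) :
    ∑ y : ZMod p, chi φ hp4 y * ((quadraticChar (ZMod p) (y + A) : ℤ) : GaussianInt) =
      star (chi φ hp4 (-A)) * J φ hp4 := by
  have hA' : -A ≠ 0 := neg_ne_zero.2 hA
  rw [← Equiv.sum_comp (Equiv.mulLeft₀ (-A) hA')]
  unfold J jacobiSum
  rw [mul_sum]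
  refine sum_congr rfl fun z _ => ?_
  show chi φ hp4 (-A * z) * ((quadraticChar (ZMod p) (-A * z + A) : ℤ) : GaussianInt) =
    star (chi φ hp4 (-A)) * (chi φ hp4 z * ((chi φ hp4) ^ 2) (1 - z))
  have e : -A * z + A = A * (1 - z) := by ring
  rw [e, map_mul, MulChar.pow_apply' _ (by norm_num), ← chi_sq φ hp4, map_mul,
    U_star (chi_U φ hp4 (-A))]
  have h1 : chi φ hp4 A ^ 2 = chi φ hp4 (-A) ^ 2 := by
    have : -A = -1 * A := by ring
    rw [this, map_mul, mul_pow, chi_neg_one, one_mul]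
  rw [mul_pow, h1]
  ring

theorem ap_eq {α : GaussianInt} {φ : GaussianInt →+* ZMod p} (hφ : ∀ x, φ x = 0 ↔ α ∣ x)
    (hn : α.norm = (p : ℤ)) (hp4 : p % 4 = 1) (A : ℤ) (hA : ¬ (p : ℤ) ∣ A) :
    ((ap A 0 p : ℤ) : GaussianInt) = star (chi φ hp4 (-A : ZMod p)) * prim α +
      star (star (chi φ hp4 (-A : ZMod p)) * prim α) := by
  have hp2 : p ≠ 2 := by omega
  have hA0 : ((A : ℤ) : ZMod p) ≠ 0 := by
    rwa [Ne, ZMod.intCast_zmod_eq_zero_iff_dvd]
  have h1 : ap A 0 p = -∑ x : ZMod p, quadraticChar (ZMod p) (x ^ 3 + (A : ZMod p) * x + ((0 : ℤ) : ZMod p)) := by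
    unfold ap
    rw [Pool.Agent.Y691.QT.card_eq p hp2]
    ring
  have h2 : ∀ x : ZMod p, ((quadraticChar (ZMod p) (x ^ 3 + (A : ZMod p) * x + ((0 : ℤ) : ZMod p)) : ℤ) :
      GaussianInt) = (fun y : ZMod p => chi φ hp4 y *
        ((quadraticChar (ZMod p) (y + (A : ZMod p)) : ℤ) : GaussianInt)) (x ^ 2) := by
    intro x
    have e : x ^ 3 + (A : ZMod p) * x + ((0 : ℤ) : ZMod p) = x * (x ^ 2 + (A : ZMod p)) := by
      push_cast; ring
    rw [e, map_mul]
    push_cast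
    rw [← chi_sq φ hp4 x, map_pow]
  have h3 : (((∑ x : ZMod p, quadraticChar (ZMod p) (x ^ 3 + (A : ZMod p) * x + ((0 : ℤ) : ZMod p))) : ℤ) :
      GaussianInt) = (∑ y : ZMod p, chi φ hp4 y *
        ((quadraticChar (ZMod p) (y + (A : ZMod p)) : ℤ) : GaussianInt)) +
        star (∑ y : ZMod p, chi φ hp4 y *
        ((quadraticChar (ZMod p) (y + (A : ZMod p)) : ℤ) : GaussianInt)) := by
    rw [Int.cast_sum, sum_congr rfl fun x _ => h2 x, sum_sq hp2 (fun y : ZMod p => chi φ hp4 y *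
        ((quadraticChar (ZMod p) (y + (A : ZMod p)) : ℤ) : GaussianInt)), star_sum, ← sum_add_distrib]
    refine sum_congr rfl fun y _ => ?_
    show _ * (chi φ hp4 y * ((quadraticChar (ZMod p) (y + (A : ZMod p)) : ℤ) : GaussianInt)) = _
    rw [star_mul', U_star (chi_U φ hp4 y)]
    have e : star (((quadraticChar (ZMod p) (y + (A : ZMod p)) : ℤ) : GaussianInt)) =
      ((quadraticChar (ZMod p) (y + (A : ZMod p)) : ℤ) : GaussianInt) := by
      rw [star_intCast]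
    rw [e]
    have e2 : (((quadraticChar (ZMod p) y + 1 : ℤ)) : GaussianInt) = chi φ hp4 y ^ 2 + 1 := by
      push_cast
      rw [chi_sq φ hp4 y]
    rw [e2]
    ring
  rw [h1, Int.cast_neg, h3, S_eq φ hp4 _ hA0, J_eq hφ hn hp4]
  simp only [star_mul', star_neg, star_star, mul_neg]
  ring

end

end Pool.Agent.Y153.QN3
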