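import Pool.Agent.Y153.QN3.Lift

/-! Project QT, task N3 (arithmetic): the quartic symbol `α ↦ (B/α)₄`, `B` an integer. -/

set_option autoImplicit false

namespace Pool.Agent.Y153.QN3

theorem cop_iff (α : GaussianInt) (m : ℕ) :
    IsCoprime α (m : GaussianInt) ↔ IsCoprime α.norm (m : ℤ) := by
  constructor
  · rintro ⟨a, b, h⟩
    have h1 : a * α = 1 - b * m := by rw [← h]; ring
    have h2 : a.norm * α.norm = 1 + (m : ℤ) * ((m : ℤ) * b.norm - 2 * b.re) := by
      rw [← Zsqrtd.norm_mul, h1]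
      simp only [Zsqrtd.norm_def, Zsqrtd.re_sub, Zsqrtd.im_sub, Zsqrtd.re_one, Zsqrtd.im_one,
        Zsqrtd.re_mul, Zsqrtd.im_mul, Zsqrtd.re_natCast, Zsqrtd.im_natCast]
      ring
    refine ⟨a.norm, -((m : ℤ) * b.norm - 2 * b.re), ?_⟩
    rw [h2]
    ring
  · rintro ⟨a, b, h⟩
    refine ⟨(a : GaussianInt) * star α, (b : GaussianInt), ?_⟩
    have h1 : ((a * α.norm + b * (m : ℤ) : ℤ) : GaussianInt) = 1 := by rw [h]; simp
    rw [← h1]
    push_cast
    rw [Zsqrtd.norm_eq_mul_conj]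
    ring

theorem cop_star (α : GaussianInt) (m : ℕ) :
    IsCoprime (star α) (m : GaussianInt) ↔ IsCoprime α (m : GaussianInt) := by
  rw [cop_iff, cop_iff, Zsqrtd.norm_conj]

theorem cop_congr {α β : GaussianInt} {m : ℕ} (h : (m : GaussianInt) ∣ α - β) :
    IsCoprime α (m : GaussianInt) ↔ IsCoprime β (m : GaussianInt) := by
  obtain ⟨c, hc⟩ := h
  have e : α = β + m * c := by rw [← hc]; ring
  rw [e]
  constructor
  · intro h
    have := h.add_mul_left_left (-c)
    simpa using this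
  · intro h
    exact h.add_mul_left_left c

theorem cop_mul {α β : GaussianInt} {m : ℕ} :
    IsCoprime (α * β) (m : GaussianInt) ↔
      IsCoprime α (m : GaussianInt) ∧ IsCoprime β (m : GaussianInt) :=
  IsCoprime.mul_left_iff

theorem cop_mul_right {α : GaussianInt} {m n : ℕ} :
    IsCoprime α ((m * n : ℕ) : GaussianInt) ↔
      IsCoprime α (m : GaussianInt) ∧ IsCoprime α (n : GaussianInt) := by
  rw [Nat.cast_mul]
  exact IsCoprime.mul_right_iff

theorem cop_prime {α : GaussianInt} {q : ℕ} (hq : q.Prime) :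
    IsCoprime α (q : GaussianInt) ↔ ¬ (q : ℤ) ∣ α.norm := by
  rw [cop_iff, isCoprime_comm, Prime.coprime_iff_not_dvd (Nat.prime_iff_prime_int.1 hq)]

theorem cop_unit {u : GaussianInt} (hu : IsUnit u) (m : ℕ) : IsCoprime u (m : GaussianInt) := by
  obtain ⟨v, hv⟩ := hu.exists_left_inv
  exact ⟨v, 0, by rw [hv]; ring⟩

/-- `ε(α) = (B/α)₄` -/
structure Sym (B : ℤ) (m : ℕ) (ε : GaussianInt → GaussianInt) : Prop where
  pos : 0 < m
  bad : ∀ p : ℕ, p.Prime → p ∣ m → (p : ℤ) ∣ 2 * B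
  mul : ∀ α β : GaussianInt, ε (α * β) = ε α * ε β
  per : ∀ α β : GaussianInt, (m : GaussianInt) ∣ α - β → ε α = ε β
  zero : ∀ α : GaussianInt, ε α = 0 ↔ ¬ IsCoprime α (m : GaussianInt)
  U : ∀ α, U (ε α)
  unit : ∀ u : GaussianInt, IsUnit u → ε u = 1
  star : ∀ α : GaussianInt, ε (star α) = star (ε α)
  inert : ∀ p : ℕ, p.Prime → p % 4 = 3 → ¬ (p : ℤ) ∣ 2 * B → ε (p : GaussianInt) = 1
  split : ∀ (α : GaussianInt) (p : ℕ), p.Prime → ¬ (p : ℤ) ∣ 2 * B → α.norm = (p : ℤ) →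
    α ∣ (B : GaussianInt) ^ ((p - 1) / 4) - ε α

theorem Sym_one : Sym 1 1 (fun _ => 1) where
  pos := one_pos
  bad := by
    intro p hp h
    exact absurd (Nat.dvd_one.1 h) hp.one_lt.ne'
  mul := by simp
  per := by simp
  zero := by
    intro α
    simp
    exact isCoprime_one_right
  U := fun _ => U_one
  unit := by simp
  star := by simp
  inert := by simp
  split := by simp

theorem Sym.prod {B B' : ℤ} {m m' : ℕ} {ε ε' : GaussianInt → GaussianInt} (h : Sym B m ε)
    (h' : Sym B' m' ε') : Sym (B * B') (m * m') (fun α => ε α * ε' α) where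
  pos := Nat.mul_pos h.pos h'.pos
  bad := by
    intro p hp hd
    rcases (hp.dvd_mul).1 hd with h1 | h1
    · obtain ⟨c, hc⟩ := h.bad p hp h1
      exact ⟨c * B', by linear_combination B' * hc⟩
    · obtain ⟨c, hc⟩ := h'.bad p hp h1
      exact ⟨c * B, by linear_combination B * hc⟩
  mul := by
    intro α β
    rw [h.mul, h'.mul]
    ring
  per := by
    intro α β hd
    rw [Nat.cast_mul] at hd
    rw [h.per α β (dvd_trans (Dvd.intro _ rfl) hd), h'.per α β (dvd_trans (Dvd.intro_left _ rfl) hd)]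
  zero := by
    intro α
    rw [mul_eq_zero, h.zero, h'.zero, cop_mul_right]
    tauto
  U := fun α => U_mul (h.U α) (h'.U α)
  unit := by
    intro u hu
    rw [h.unit u hu, h'.unit u hu, one_mul]
  star := by
    intro α
    rw [h.star, h'.star, star_mul']
  inert := by
    intro p hp hp4 hd
    rw [h.inert p hp hp4 fun h1 => hd (h1.trans ⟨B', by ring⟩),
      h'.inert p hp hp4 fun h1 => hd (h1.trans ⟨B, by ring⟩), one_mul]
  split := by
    intro α p hp hd hn
    have h1 := h.split α p hp (fun h1 => hd (h1.trans ⟨B', by ring⟩)) hn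
    have h2 := h'.split α p hp (fun h1 => hd (h1.trans ⟨B, by ring⟩)) hn
    rw [Int.cast_mul, mul_pow]
    have e : (B : GaussianInt) ^ ((p - 1) / 4) * (B' : GaussianInt) ^ ((p - 1) / 4) - ε α * ε' α =
      ((B : GaussianInt) ^ ((p - 1) / 4) - ε α) * (B' : GaussianInt) ^ ((p - 1) / 4) +
        ε α * ((B' : GaussianInt) ^ ((p - 1) / 4) - ε' α) := by ring
    rw [e]
    exact dvd_add (Dvd.dvd.mul_right h1 _) (Dvd.dvd.mul_left h2 _)

/-- the sign that makes an odd `α` primary, as a function of `α` modulo `4` -/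
def wf (x y : ZMod 4) : GaussianInt :=
  if (y = 0 ∨ y = 2) ∧ x + y = 1 then 1 else
  if (y = 0 ∨ y = 2) ∧ x + y = 3 then -1 else
  if (x = 0 ∨ x = 2) ∧ y - x = 1 then ⟨0, -1⟩ else
  if (x = 0 ∨ x = 2) ∧ y - x = 3 then ⟨0, 1⟩ else 0

def w (α : GaussianInt) : GaussianInt := wf α.re α.im

theorem wf_mul : ∀ x y z t : ZMod 4, wf (x * z + -1 * y * t) (x * t + y * z) = wf x y * wf z t := by
  decide +kernel

theorem wf_star : ∀ x y : ZMod 4, wf x (-y) = star (wf x y) := by
  decide +kernel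

theorem w_mul (α β : GaussianInt) : w (α * β) = w α * w β := by
  unfold w
  rw [Zsqrtd.re_mul, Zsqrtd.im_mul]
  push_cast
  exact wf_mul _ _ _ _

theorem w_star (α : GaussianInt) : w (star α) = star (w α) := by
  unfold w
  rw [Zsqrtd.re_star, Zsqrtd.im_star]
  push_cast
  exact wf_star _ _

theorem re_dvd {m : ℕ} {α β : GaussianInt} (h : (m : GaussianInt) ∣ α - β) :
    ((α.re : ℤ) : ZMod m) = (β.re : ℤ) ∧ ((α.im : ℤ) : ZMod m) = (β.im : ℤ) := by
  obtain ⟨c, hc⟩ := h
  have h1 := congrArg Zsqrtd.re hc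
  have h2 := congrArg Zsqrtd.im hc
  rw [Zsqrtd.re_sub, Zsqrtd.re_mul, Zsqrtd.re_natCast, Zsqrtd.im_natCast] at h1
  rw [Zsqrtd.im_sub, Zsqrtd.im_mul, Zsqrtd.re_natCast, Zsqrtd.im_natCast] at h2
  constructor
  · have : α.re = β.re + m * c.re := by linarith
    rw [this]; simp
  · have : α.im = β.im + m * c.im := by linarith
    rw [this]; simp

theorem w_per {α β : GaussianInt} (h : ((4 : ℕ) : GaussianInt) ∣ α - β) : w α = w β := by
  obtain ⟨h1, h2⟩ := re_dvd h
  unfold w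
  rw [h1, h2]

theorem wf_U : ∀ x y : ZMod 4, wf x y = 0 ∨ wf x y ^ 4 = 1 := by
  decide +kernel

theorem w_U (α : GaussianInt) : U (w α) := wf_U _ _

theorem wf_zero : ∀ x y : ZMod 4, wf x y = 0 ↔ (x + y = 0 ∨ x + y = 2) := by
  decide +kernel

theorem two_iff (n : ℤ) : ((n : ZMod 4) = 0 ∨ (n : ZMod 4) = 2) ↔ n % 2 = 0 := by
  have h4 : (n : ZMod 4) = 0 ↔ n % 4 = 0 := by
    rw [show (0 : ZMod 4) = ((0 : ℤ) : ZMod 4) by simp, ZMod.intCast_eq_intCast_iff']
    norm_num
  have h2 : (n : ZMod 4) = 2 ↔ n % 4 = 2 := by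
    rw [show (2 : ZMod 4) = ((2 : ℤ) : ZMod 4) by simp, ZMod.intCast_eq_intCast_iff']
    norm_num
  rw [h4, h2]
  omega

theorem w_zero (α : GaussianInt) : w α = 0 ↔ (α.re + α.im) % 2 = 0 := by
  unfold w
  rw [wf_zero, ← two_iff]
  push_cast
  rfl

theorem norm_mod2 (α : GaussianInt) : α.norm % 2 = (α.re + α.im) % 2 := by
  rw [Zsqrtd.norm_def]
  have h1 : ∀ n : ℤ, n * n % 2 = n % 2 := by
    intro n
    rcases Int.emod_two_eq_zero_or_one n with h | h <;> simp [Int.mul_emod, h]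
  have := h1 α.re
  have := h1 α.im
  have e : α.re * α.re - -1 * α.im * α.im = α.re * α.re + α.im * α.im := by ring
  rw [e]
  omega

theorem cop_two_pow (α : GaussianInt) {k : ℕ} (hk : k ≠ 0) :
    IsCoprime α ((2 ^ k : ℕ) : GaussianInt) ↔ (α.re + α.im) % 2 = 1 := by
  rw [Nat.cast_pow, IsCoprime.pow_right_iff (Nat.pos_of_ne_zero hk), cop_prime Nat.prime_two]
  have := norm_mod2 α
  push_cast
  omega

theorem wf_prim : ∀ x y : ZMod 4, (x + y = 1 ∨ x + y = 3) →
    (((((wf x y).re : ℤ) : ZMod 4) * x - ((wf x y).im : ℤ) * y = 1 ∧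
      (((wf x y).re : ℤ) : ZMod 4) * y + ((wf x y).im : ℤ) * x = 0) ∨
    ((((wf x y).re : ℤ) : ZMod 4) * x - ((wf x y).im : ℤ) * y = 3 ∧
      (((wf x y).re : ℤ) : ZMod 4) * y + ((wf x y).im : ℤ) * x = 2)) := by
  decide +kernel

/-- the primary associate of an odd `α` -/
def prim (α : GaussianInt) : GaussianInt := w α * α

theorem prim_mul (α β : GaussianInt) : prim (α * β) = prim α * prim β := by
  unfold prim
  rw [w_mul]
  ring

theorem prim_star (α : GaussianInt) : prim (star α) = star (prim α) := by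
  unfold prim
  rw [w_star, star_mul']

theorem prim_dvd {α : GaussianInt} (h : (α.re + α.im) % 2 = 1) :
    (⟨2, 2⟩ : GaussianInt) ∣ prim α - 1 := by
  have h1 : ((α.re : ℤ) : ZMod 4) + ((α.im : ℤ) : ZMod 4) = 1 ∨
      ((α.re : ℤ) : ZMod 4) + ((α.im : ℤ) : ZMod 4) = 3 := by
    rw [← Int.cast_add]
    have e1 : (((α.re + α.im : ℤ) : ZMod 4) = 1) ↔ (α.re + α.im) % 4 = 1 := by
      rw [show (1 : ZMod 4) = ((1 : ℤ) : ZMod 4) by simp, ZMod.intCast_eq_intCast_iff']
      norm_num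
    have e3 : (((α.re + α.im : ℤ) : ZMod 4) = 3) ↔ (α.re + α.im) % 4 = 3 := by
      rw [show (3 : ZMod 4) = ((3 : ℤ) : ZMod 4) by simp, ZMod.intCast_eq_intCast_iff']
      norm_num
    rw [e1, e3]
    omega
  have h2 := wf_prim _ _ h1
  set x := (prim α).re with hx
  set y := (prim α).im with hy
  have ex : x = (w α).re * α.re - (w α).im * α.im := by
    rw [hx]; unfold prim; rw [Zsqrtd.re_mul]; ring
  have ey : y = (w α).re * α.im + (w α).im * α.re := by
    rw [hy]; unfold prim; rw [Zsqrtd.im_mul]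
  have h3 : (x % 4 = 1 ∧ y % 4 = 0) ∨ (x % 4 = 3 ∧ y % 4 = 2) := by
    have cx : ∀ (n : ℤ) (c : ℕ), c < 4 → ((n : ZMod 4) = c ↔ n % 4 = c) := by
      intro n c hc
      rw [show ((c : ℕ) : ZMod 4) = ((c : ℤ) : ZMod 4) by simp, ZMod.intCast_eq_intCast_iff']
      have : ((c : ℤ)) % ((4 : ℕ) : ℤ) = c := by omega
      rw [this]
      norm_num
    rcases h2 with ⟨a, b⟩ | ⟨a, b⟩
    · left
      constructor
      · have := (cx x 1 (by norm_num)).1 (by rw [ex]; push_cast; exact a)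
        simpa using this
      · have := (cx y 0 (by norm_num)).1 (by rw [ey]; push_cast; exact b)
        simpa using this
    · right
      constructor
      · have := (cx x 3 (by norm_num)).1 (by rw [ex]; push_cast; exact a)
        simpa using this
      · have := (cx y 2 (by norm_num)).1 (by rw [ey]; push_cast; exact b)
        simpa using this
  refine ⟨⟨(x - 1 + y) / 4, (y - x + 1) / 4⟩, ?_⟩
  apply Zsqrtd.ext
  · rw [Zsqrtd.re_sub, Zsqrtd.re_one, Zsqrtd.re_mul]
    simp only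
    rw [← hx]
    omega
  · rw [Zsqrtd.im_sub, Zsqrtd.im_one, Zsqrtd.im_mul]
    simp only
    rw [← hy]
    omega

theorem w_unit {u : GaussianInt} (hu : IsUnit u) : w u * u = 1 := by
  rcases U_cases (Or.inr (U_unit hu)) with h | h | h | h | h
  · subst h; exact absurd hu (by simp)
  all_goals subst h; decide +kernel

theorem prim_unit {u : GaussianInt} (hu : IsUnit u) : prim u = 1 := w_unit hu

theorem w_isUnit {α : GaussianInt} (h : (α.re + α.im) % 2 = 1) : IsUnit (w α) := by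
  rcases w_U α with h1 | h1
  · rw [w_zero] at h1; omega
  · exact isUnit_of_pow h1

theorem norm_prim {α : GaussianInt} (h : (α.re + α.im) % 2 = 1) : (prim α).norm = α.norm := by
  unfold prim
  rw [Zsqrtd.norm_mul]
  have h1 := (Zsqrtd.norm_eq_one_iff).2 (w_isUnit h)
  have h2 : (w α).norm = 1 := by
    have h3 : 0 ≤ (w α).norm := GaussianInt.norm_nonneg _
    omega
  rw [h2, one_mul]

theorem w_three {p : ℕ} (hp : p % 4 = 3) : w (p : GaussianInt) = -1 := by
  unfold w
  rw [Zsqrtd.re_natCast, Zsqrtd.im_natCast]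
  have h : (((p : ℤ) : ℤ) : ZMod 4) = 3 := by
    have : ((p : ℤ) : ZMod 4) = ((3 : ℤ) : ZMod 4) := by
      rw [ZMod.intCast_eq_intCast_iff']
      push_cast
      omega
    rw [this]; rfl
  rw [h]
  decide +kernel

theorem prim_three {p : ℕ} (hp : p % 4 = 3) : prim (p : GaussianInt) = -(p : GaussianInt) := by
  unfold prim
  rw [w_three hp]
  ring

end Pool.Agent.Y153.QN3
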