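import Pool.Agent.Y153.QN3.Chi

/-! Project QT, task N3 (arithmetic): the symbol `(2/α)₄` (Dirichlet's proof). -/

set_option autoImplicit false

namespace Pool.Agent.Y153.QN3

/-- `i ^ (c/2)` for `c` even modulo `8` -/
def ef (c : ZMod 8) : GaussianInt :=
  if c = 0 then 1 else if c = 2 then ⟨0, 1⟩ else if c = 4 then -1 else if c = 6 then ⟨0, -1⟩ else 0

/-- `(2/α)₄` as a function of `α` modulo `8` -/
def tf (x y : ZMod 8) : GaussianInt :=
  if x.val % 2 = 1 ∧ y.val % 2 = 0 then ef (x * y) else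
  if x.val % 2 = 0 ∧ y.val % 2 = 1 then ef (-(x * y)) else 0

theorem tf_mul : ∀ x y z t : ZMod 8, tf (x * z + -1 * y * t) (x * t + y * z) = tf x y * tf z t := by
  decide +kernel

theorem tf_star : ∀ x y : ZMod 8, tf x (-y) = star (tf x y) := by
  decide +kernel

theorem tf_U : ∀ x y : ZMod 8, tf x y = 0 ∨ tf x y ^ 4 = 1 := by
  decide +kernel

theorem tf_zero : ∀ x y : ZMod 8, tf x y = 0 ↔ (x + y).val % 2 = 0 := by
  decide +kernel

theorem tf_rot : ∀ x y : ZMod 8, tf x y = tf y (-x) := by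
  decide +kernel

theorem zm8 (n : ℤ) (c : ℕ) (hc : c < 8) : ((n : ZMod 8) = c ↔ n % 8 = c) := by
  rw [show ((c : ℕ) : ZMod 8) = ((c : ℤ) : ZMod 8) by simp, ZMod.intCast_eq_intCast_iff']
  have : ((c : ℤ)) % ((8 : ℕ) : ℤ) = c := by omega
  rw [this]
  norm_num

theorem val8 (n : ℤ) : ((n : ZMod 8).val : ℤ) = n % 8 := by
  rw [ZMod.val_intCast]
  norm_num

theorem gcd_natAbs' (x y : ℤ) : Int.gcd x (y.natAbs : ℤ) = Int.gcd x y := by
  simp [Int.gcd, Int.natAbs_abs]

theorem two_main {p : ℕ} [hp : Fact p.Prime] (hp4 : p % 4 = 1) (a b : ℤ) (ha : a % 2 = 1)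
    (hb : b % 2 = 0) (h : a * a + b * b = p) (r : ZMod p) (hr : ((b : ℤ) : ZMod p) = r * (a : ℤ))
    (hr2 : r ^ 2 = -1) :
    (2 : ZMod p) ^ ((p - 1) / 4) = r ^ (a * b / 2 : ℤ) := by
  have hpp := hp.out
  have hpi : Prime (p : ℤ) := Nat.prime_iff_prime_int.1 hpp
  have h5 : 5 ≤ p := by
    have := hpp.two_le
    omega
  -- coprimality
  have hab : IsCoprime a b := by
    rw [Int.isCoprime_iff_gcd_eq_one]
    by_contra hne
    obtain ⟨q, hq, hqd⟩ := Nat.exists_prime_and_dvd hne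
    have h1 : (q : ℤ) ∣ a := (Int.natCast_dvd_natCast.2 hqd).trans (Int.gcd_dvd_left ..)
    have h2 : (q : ℤ) ∣ b := (Int.natCast_dvd_natCast.2 hqd).trans (Int.gcd_dvd_right ..)
    obtain ⟨c, hc⟩ := h1
    obtain ⟨d, hd⟩ := h2
    have h3 : (p : ℤ) = q * (q * (c * c + d * d)) := by rw [← h, hc, hd]; ring
    have h4 : (q : ℤ) ∣ p := ⟨_, h3⟩
    have h6 : q = p := (Nat.prime_dvd_prime_iff_eq hq hpp).1 (by exact_mod_cast h4)
    rw [h6] at h3
    have h7 : (p : ℤ) * (p * (c * c + d * d) - 1) = 0 := by linear_combination -h3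
    rcases mul_eq_zero.1 h7 with h8 | h8
    · exact hpi.ne_zero h8
    · exact hpi.not_dvd_one ⟨c * c + d * d, by linarith⟩
  set n : ℕ := (a + b).natAbs with hn
  set k : ℕ := a.natAbs with hk
  have hnodd : Odd n := by
    rw [hn, Int.natAbs_odd, Int.odd_iff]; omega
  have hkodd : Odd k := by
    rw [hk, Int.natAbs_odd, Int.odd_iff]; exact ha
  have hχ : ∀ x : ℤ, jacobiSym x p = jacobiSym (x.natAbs : ℤ) p := by
    intro x
    rcases Int.natAbs_eq x with h | h
    · rw [← h]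
    · have h1 : jacobiSym (-(x.natAbs : ℤ)) p = ZMod.χ₄ p * jacobiSym (x.natAbs : ℤ) p :=
        jacobiSym.neg _ (Nat.odd_iff.2 (by omega))
      rw [ZMod.χ₄_nat_one_mod_four hp4, one_mul] at h1
      rw [← h1, ← h]
  have hleg : ∀ x : ℤ, legendreSym p x = jacobiSym x p := fun x => jacobiSym.legendreSym.to_jacobiSym p x
  have hmod : ∀ (x y : ℤ) (m : ℕ), (m : ℤ) ∣ x - y → x % m = y % m := by
    intro x y m hd
    exact (Int.modEq_iff_dvd.2 hd).symm
  -- (a | p) = 1
  have hA : legendreSym p a = 1 := by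
    rw [hleg, hχ, jacobiSym.quadratic_reciprocity_one_mod_four' hkodd hp4]
    have e : (p : ℤ) % k = (b ^ 2) % k := by
      apply hmod
      refine ⟨k, ?_⟩
      rw [hk, Int.natAbs_mul_self', ← h]; ring
    rw [jacobiSym.mod_left' e]
    apply jacobiSym.sq_one'
    rw [hk, gcd_natAbs', Int.gcd_comm]
    exact Int.isCoprime_iff_gcd_eq_one.1 hab
  -- (a + b | p) = (2 | n)
  have hB : legendreSym p (a + b) = jacobiSym 2 n := by
    rw [hleg, hχ, jacobiSym.quadratic_reciprocity_one_mod_four' hnodd hp4]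
    have e : (2 * (p : ℤ)) % n = ((a - b) ^ 2) % n := by
      apply hmod
      refine ⟨n, ?_⟩
      rw [hn, Int.natAbs_mul_self', ← h]; ring
    have h1 : jacobiSym (2 * p) n = 1 := by
      rw [jacobiSym.mod_left' e]
      apply jacobiSym.sq_one'
      rw [hn, gcd_natAbs', ← Int.isCoprime_iff_gcd_eq_one]
      obtain ⟨u, v, huv⟩ := hab
      have h3 : ¬ (2 : ℤ) ∣ a + b := by omega
      have h4 : IsCoprime (2 : ℤ) (a + b) := (Prime.coprime_iff_not_dvd Int.prime_two).2 h3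
      obtain ⟨s, t, hst⟩ := h4
      refine ⟨s * (u - v), t + s * (u + v), ?_⟩
      linear_combination hst + 2 * s * huv
    rw [jacobiSym.mul_left] at h1
    have h2 : jacobiSym 2 n ^ 2 = 1 := by
      apply jacobiSym.sq_one
      have : Nat.Coprime 2 n := (Nat.coprime_two_left).2 hnodd
      simpa [Int.gcd] using this
    have h3 : jacobiSym (p : ℤ) n = jacobiSym 2 n * (jacobiSym 2 n * jacobiSym (p : ℤ) n) := by
      have : jacobiSym 2 n * (jacobiSym 2 n * jacobiSym (p : ℤ) n) =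
        jacobiSym 2 n ^ 2 * jacobiSym (p : ℤ) n := by ring
      rw [this, h2, one_mul]
    rw [h3, h1, mul_one]
  -- powers in `ZMod p`
  set m : ℕ := (p - 1) / 4 with hm
  have hp2 : p / 2 = 2 * m := by omega
  have hA' : ((a : ℤ) : ZMod p) ^ (2 * m) = 1 := by
    have h1 := legendreSym.eq_pow p a
    rw [hA, hp2] at h1
    rw [← h1]; simp
  have hB' : (((a + b : ℤ)) : ZMod p) ^ (2 * m) = ((jacobiSym 2 n : ℤ) : ZMod p) := by
    have h1 := legendreSym.eq_pow p (a + b)
    rw [hB, hp2] at h1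
    exact h1.symm
  have hsq : ((((a + b : ℤ)) : ZMod p)) ^ 2 = 2 * (r * ((a : ℤ) : ZMod p) ^ 2) := by
    have h1 : ((a : ℤ) : ZMod p) * (a : ℤ) + ((b : ℤ) : ZMod p) * (b : ℤ) = 0 := by
      have := congrArg (fun z : ℤ => (z : ZMod p)) h
      push_cast at this
      rw [ZMod.natCast_self] at this
      exact this
    push_cast
    rw [hr] at h1 ⊢
    linear_combination h1
  have hr0 : r ≠ 0 := by
    intro h0
    rw [h0] at hr2
    have : (0 : ZMod p) ^ 2 = 0 := by ring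
    rw [this] at hr2
    have h1 : (1 : ZMod p) = 0 := by linear_combination hr2
    exact one_ne_zero h1
  have key : (2 : ZMod p) ^ m * r ^ m = ((jacobiSym 2 n : ℤ) : ZMod p) := by
    rw [← hB', pow_mul, hsq, mul_pow, mul_pow, ← pow_mul, hA', mul_one]
  -- `(2 | n) = r ^ ((n² - 1) / 4)`
  have hn2 : ((n : ℤ) * n - 1) / 4 = m + a * b / 2 ∧ ((n : ℤ) * n - 1) % 8 = 0 := by
    have h1 : (n : ℤ) * n = p + 2 * (a * b) := by
      rw [hn, Int.natAbs_mul_self', ← h]; ring
    have h2 : (a * b) % 2 = 0 := by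
      obtain ⟨c, hc⟩ : ∃ c, b = 2 * c := ⟨b / 2, by omega⟩
      rw [hc, show a * (2 * c) = 2 * (a * c) by ring]; omega
    have h8 : ∀ z : ℤ, z % 2 = 1 → z * z % 8 = 1 := by
      intro z hz
      have h8 : z % 8 = 1 ∨ z % 8 = 3 ∨ z % 8 = 5 ∨ z % 8 = 7 := by omega
      rcases h8 with h | h | h | h <;> simp [Int.mul_emod, h]
    have h3 := h8 n (by
      have := Nat.odd_iff.1 hnodd
      omega)
    constructor
    · rw [hm]; omega
    · omega
  have hjac : ((jacobiSym 2 n : ℤ) : ZMod p) = r ^ (((n : ℤ) * n - 1) / 4) := by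
    rw [jacobiSym.at_two hnodd]
    have h4 : ∀ z : ℤ, r ^ (4 * z) = 1 := by
      intro z
      rw [zpow_mul]
      have : r ^ (4 : ℤ) = 1 := by
        have : r ^ (4 : ℤ) = (r ^ 2) ^ 2 := by
          rw [← pow_mul]; norm_cast
        rw [this, hr2]; ring
      rw [this, one_zpow]
    have hn8 : n % 8 = 1 ∨ n % 8 = 3 ∨ n % 8 = 5 ∨ n % 8 = 7 := by
      have := Nat.odd_iff.1 hnodd
      omega
    have hz : ((n : ℕ) : ZMod 8) = ((n % 8 : ℕ) : ZMod 8) := by
      rw [ZMod.natCast_mod]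
    obtain ⟨l, hl⟩ : ∃ l : ℕ, n = 8 * l + n % 8 := ⟨n / 8, by omega⟩
    have hr2' : r ^ (2 : ℤ) = -1 := by
      rw [← hr2]; norm_cast
    rw [hz]
    rcases hn8 with h8 | h8 | h8 | h8
    · rw [h8] at hl ⊢
      have e : ((n : ℤ) * n - 1) / 4 = 4 * (l * (4 * l + 1)) := by
        rw [hl]; push_cast
        have : ((8 : ℤ) * l + 1) * (8 * l + 1) - 1 = 4 * (4 * (l * (4 * l + 1))) := by ring
        rw [this]; omega
      rw [e, h4]
      have : ZMod.χ₈ ((1 : ℕ) : ZMod 8) = 1 := by decide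
      rw [this]; simp
    · rw [h8] at hl ⊢
      have e : ((n : ℤ) * n - 1) / 4 = 4 * (4 * l * l + 3 * l) + 2 := by
        rw [hl]; push_cast
        have : ((8 : ℤ) * l + 3) * (8 * l + 3) - 1 = 4 * (4 * (4 * l * l + 3 * l) + 2) := by ring
        rw [this]; omega
      rw [e, zpow_add₀ hr0, h4, hr2']
      have : ZMod.χ₈ ((3 : ℕ) : ZMod 8) = -1 := by decide
      rw [this]; simp
    · rw [h8] at hl ⊢
      have e : ((n : ℤ) * n - 1) / 4 = 4 * (4 * l * l + 5 * l + 1) + 2 := by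
        rw [hl]; push_cast
        have : ((8 : ℤ) * l + 5) * (8 * l + 5) - 1 = 4 * (4 * (4 * l * l + 5 * l + 1) + 2) := by ring
        rw [this]; omega
      rw [e, zpow_add₀ hr0, h4, hr2']
      have : ZMod.χ₈ ((5 : ℕ) : ZMod 8) = -1 := by decide
      rw [this]; simp
    · rw [h8] at hl ⊢
      have e : ((n : ℤ) * n - 1) / 4 = 4 * (4 * l * l + 7 * l + 3) := by
        rw [hl]; push_cast
        have : ((8 : ℤ) * l + 7) * (8 * l + 7) - 1 = 4 * (4 * (4 * l * l + 7 * l + 3)) := by ring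
        rw [this]; omega
      rw [e, h4]
      have : ZMod.χ₈ ((7 : ℕ) : ZMod 8) = 1 := by decide
      rw [this]; simp
  rw [hjac, hn2.1, zpow_add₀ hr0, zpow_natCast, mul_comm (r ^ m)] at key
  exact mul_right_cancel₀ (pow_ne_zero m hr0) key

theorem ef_map {p : ℕ} [hp : Fact p.Prime] (φ : GaussianInt →+* ZMod p) (n : ℤ) :
    φ (ef ((2 * n : ℤ) : ZMod 8)) = (φ ⟨0, 1⟩) ^ n := by
  set r := φ ⟨0, 1⟩ with hr
  have hr2 : r ^ 2 = -1 := by
    rw [hr, ← map_pow]
    have : ((⟨0, 1⟩ : GaussianInt)) ^ 2 = -1 := by decide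
    rw [this, map_neg, map_one]
  have hr0 : r ≠ 0 := by
    intro h0
    rw [h0] at hr2
    have : (0 : ZMod p) ^ 2 = 0 := by ring
    rw [this] at hr2
    have h1 : (1 : ZMod p) = 0 := by linear_combination hr2
    exact one_ne_zero h1
  have h4 : ∀ z : ℤ, r ^ (4 * z) = 1 := by
    intro z
    rw [zpow_mul]
    have : r ^ (4 : ℤ) = 1 := by
      have : r ^ (4 : ℤ) = (r ^ 2) ^ 2 := by
        rw [← pow_mul]; norm_cast
      rw [this, hr2]; ring
    rw [this, one_zpow]
  have hc : ∀ c : ℕ, c < 4 → n % 4 = c → ((2 * n : ℤ) : ZMod 8) = ((2 * c : ℕ) : ZMod 8) ∧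
      r ^ n = r ^ c := by
    intro c hc hnc
    constructor
    · exact (zm8 (2 * n) (2 * c) (by omega)).2 (by push_cast; omega)
    · have e : n = 4 * (n / 4) + c := by omega
      rw [e, zpow_add₀ hr0, h4, one_mul, zpow_natCast]
  have h : n % 4 = 0 ∨ n % 4 = 1 ∨ n % 4 = 2 ∨ n % 4 = 3 := by omega
  rcases h with h | h | h | h
  · obtain ⟨h1, h2⟩ := hc 0 (by norm_num) (by simpa using h)
    rw [h1, h2]
    have : ef ((2 * 0 : ℕ) : ZMod 8) = 1 := by decide +kernel
    rw [this]; simp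
  · obtain ⟨h1, h2⟩ := hc 1 (by norm_num) (by simpa using h)
    rw [h1, h2]
    have : ef ((2 * 1 : ℕ) : ZMod 8) = ⟨0, 1⟩ := by decide +kernel
    rw [this, pow_one]
  · obtain ⟨h1, h2⟩ := hc 2 (by norm_num) (by simpa using h)
    rw [h1, h2]
    have : ef ((2 * 2 : ℕ) : ZMod 8) = -1 := by decide +kernel
    rw [this, hr2]; simp
  · obtain ⟨h1, h2⟩ := hc 3 (by norm_num) (by simpa using h)
    rw [h1, h2]
    have : ef ((2 * 3 : ℕ) : ZMod 8) = -⟨0, 1⟩ := by decide +kernel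
    rw [this, map_neg, ← hr, pow_succ, hr2]
    ring

/-- the case `α = a + b i`, `a` odd -/
theorem two_split {p : ℕ} [hp : Fact p.Prime] (hp4 : p % 4 = 1) {α : GaussianInt}
    (hn : α.norm = (p : ℤ)) (ha : α.re % 2 = 1) :
    α ∣ (2 : GaussianInt) ^ ((p - 1) / 4) - tf (α.re : ZMod 8) (α.im : ZMod 8) := by
  obtain ⟨φ, hφ⟩ := exists_red α hn
  have hodd : (α.re + α.im) % 2 = 1 := by
    have := norm_mod2 α
    omega
  have hb : α.im % 2 = 0 := by omega
  have h : α.re * α.re + α.im * α.im = p := by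
    rw [← hn, Zsqrtd.norm_def]; ring
  have hr2 : (φ ⟨0, 1⟩) ^ 2 = -1 := by
    rw [← map_pow]
    have : ((⟨0, 1⟩ : GaussianInt)) ^ 2 = -1 := by decide
    rw [this, map_neg, map_one]
  have h0 : φ α = 0 := (hφ α).2 (dvd_refl _)
  have h1 : φ α = ((α.re : ℤ) : ZMod p) + ((α.im : ℤ) : ZMod p) * φ ⟨0, 1⟩ := by
    have e : α = ((α.re : ℤ) : GaussianInt) + ((α.im : ℤ) : GaussianInt) * ⟨0, 1⟩ := by
      apply Zsqrtd.ext <;> simp
    conv_lhs => rw [e]
    rw [map_add, map_mul, map_intCast, map_intCast]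
  have hr : ((α.im : ℤ) : ZMod p) = φ ⟨0, 1⟩ * ((α.re : ℤ) : ZMod p) := by
    rw [h0] at h1
    linear_combination (φ ⟨0, 1⟩) * h1 + ((α.im : ℤ) : ZMod p) * hr2
  have h2 := two_main hp4 α.re α.im ha hb h (φ ⟨0, 1⟩) hr hr2
  have h3 : tf (α.re : ZMod 8) (α.im : ZMod 8) = ef ((2 * (α.re * α.im / 2) : ℤ) : ZMod 8) := by
    unfold tf
    rw [if_pos]
    · congr 1
      have : 2 * (α.re * α.im / 2) = α.re * α.im := by
        have : (α.re * α.im) % 2 = 0 := by
          obtain ⟨c, hc⟩ : ∃ c, α.im = 2 * c := ⟨α.im / 2, by omega⟩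
          rw [hc, show α.re * (2 * c) = 2 * (α.re * c) by ring]; omega
        omega
      rw [this]
      push_cast
      ring
    · have e1 := val8 α.re
      have e2 := val8 α.im
      omega
  rw [← hφ, map_sub, map_pow, h3, ef_map, ← h2, map_ofNat, sub_self]

theorem Sym_two : Sym 2 8 (fun α => tf α.re α.im) where
  pos := by norm_num
  bad := by
    intro p hp h
    have h2 : p ∣ 2 := by
      have : p ∣ 2 ^ 3 := by norm_num; exact h
      exact hp.dvd_of_dvd_pow this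
    have : (p : ℤ) ∣ 2 := by exact_mod_cast h2
    exact this.trans ⟨2, by ring⟩
  mul := by
    intro α β
    rw [Zsqrtd.re_mul, Zsqrtd.im_mul]
    push_cast
    exact tf_mul _ _ _ _
  per := by
    intro α β h
    obtain ⟨h1, h2⟩ := re_dvd h
    rw [h1, h2]
  zero := by
    intro α
    rw [tf_zero, ← Int.cast_add]
    have h1 := val8 (α.re + α.im)
    have h2 := cop_two_pow α (k := 3) (by norm_num)
    rw [show (2 ^ 3 : ℕ) = 8 by norm_num] at h2
    rw [h2]
    omega
  U := fun α => tf_U _ _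
  unit := by
    intro u hu
    rcases U_cases (Or.inr (U_unit hu)) with h | h | h | h | h
    · subst h; exact absurd hu (by simp)
    all_goals subst h; decide +kernel
  star := by
    intro α
    rw [Zsqrtd.re_star, Zsqrtd.im_star]
    push_cast
    exact tf_star _ _
  inert := by
    intro p hp hp4 _
    rw [Zsqrtd.re_natCast, Zsqrtd.im_natCast]
    have h : ∀ x : ZMod 8, x.val % 2 = 1 → tf x ((0 : ℤ) : ZMod 8) = 1 := by decide +kernel
    apply h
    have := val8 (p : ℤ)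
    omega
  split := by
    intro α p hp hd hn
    have : Fact p.Prime := ⟨hp⟩
    have hp2 : p % 2 = 1 := by
      rcases hp.eq_two_or_odd with h | h
      · exact absurd (by rw [h]; exact ⟨2, by ring⟩) hd
      · exact h
    have hp4 := norm_mod4 hn hp2
    have hodd : (α.re + α.im) % 2 = 1 := by
      have := norm_mod2 α
      omega
    push_cast
    by_cases ha : α.re % 2 = 1
    · exact two_split hp4 hn ha
    · have hu : IsUnit (⟨0, -1⟩ : GaussianInt) := isUnit_of_pow (by decide)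
      have e : (⟨0, -1⟩ : GaussianInt) * α = ⟨α.im, -α.re⟩ := by
        apply Zsqrtd.ext <;> simp [Zsqrtd.re_mul, Zsqrtd.im_mul]
      have h1 : ((⟨0, -1⟩ : GaussianInt) * α).norm = (p : ℤ) := by
        rw [Zsqrtd.norm_mul, hn]
        have : (⟨0, -1⟩ : GaussianInt).norm = 1 := by decide
        rw [this, one_mul]
      have h2 : ((⟨0, -1⟩ : GaussianInt) * α).re % 2 = 1 := by
        rw [e]; simp only; omega
      have h3 := two_split hp4 h1 h2
      rw [hu.mul_left_dvd] at h3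
      rw [e] at h3
      simp only at h3
      rw [tf_rot]
      push_cast at h3
      exact h3

end Pool.Agent.Y153.QN3
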